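import Pool.Agent.Helper123.CRX.Defs

set_option autoImplicit false

open Topology Filter Set
open scoped ContDiff

namespace Pool.Agent.Helper123.CRX

/-- the Hermitian form, conjugate linear in the first variable -/
noncomputable def ip {m : ℕ} (p x : Cn m) : ℂ := ∑ i, (starRingEnd ℂ) (p i) * x i

noncomputable def NN {m : ℕ} (q : Cn m) : ℝ := ∑ i, ‖q i‖ ^ 2

lemma ip_self {m : ℕ} (q : Cn m) : ip q q = (NN q : ℂ) := by
  unfold ip NN
  push_cast
  refine Finset.sum_congr rfl fun i _ => ?_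
  rw [mul_comm, Complex.mul_conj, Complex.normSq_eq_norm_sq]
  push_cast
  rfl

lemma ip_add {m : ℕ} (p x y : Cn m) : ip p (x + y) = ip p x + ip p y := by
  simp [ip, mul_add, Finset.sum_add_distrib]

lemma ip_smul {m : ℕ} (p x : Cn m) (c : ℂ) : ip p (c • x) = c * ip p x := by
  simp only [ip, Pi.smul_apply, smul_eq_mul, Finset.mul_sum]
  refine Finset.sum_congr rfl fun i _ => ?_
  ring

lemma ip_rsmul {m : ℕ} (p x : Cn m) (c : ℝ) : ip p (c • x) = c * ip p x := by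
  simp only [ip, Pi.smul_apply, Complex.real_smul, Finset.mul_sum]
  refine Finset.sum_congr rfl fun i _ => ?_
  ring

lemma ip_sub {m : ℕ} (p x y : Cn m) : ip p (x - y) = ip p x - ip p y := by
  simp [ip, mul_sub, Finset.sum_sub_distrib]

lemma ip_smul_left {m : ℕ} (p x : Cn m) (c : ℂ) : ip (c • p) x = (starRingEnd ℂ) c * ip p x := by
  simp only [ip, Pi.smul_apply, smul_eq_mul, Finset.mul_sum, map_mul]
  refine Finset.sum_congr rfl fun i _ => ?_
  ring

lemma ip_add_left {m : ℕ} (p q x : Cn m) : ip (p + q) x = ip p x + ip q x := by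
  simp [ip, add_mul, Finset.sum_add_distrib]

lemma ip_conj {m : ℕ} (p x : Cn m) : (starRingEnd ℂ) (ip p x) = ip x p := by
  simp only [ip, map_sum, map_mul, Complex.conj_conj]
  refine Finset.sum_congr rfl fun i _ => ?_
  ring

lemma NN_nonneg {m : ℕ} (q : Cn m) : 0 ≤ NN q := Finset.sum_nonneg fun i _ => by positivity

lemma NN_pos {m : ℕ} (q : Cn m) (h : q ≠ 0) : 0 < NN q := by
  rcases (NN_nonneg q).lt_or_eq with h1 | h1
  · exact h1
  · exfalso
    apply h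
    have := (Finset.sum_eq_zero_iff_of_nonneg (fun i _ => by positivity)).1 h1.symm
    funext i
    have hi := this i (Finset.mem_univ i)
    simpa using hi

/-- derivative of the Hermitian square along a curve -/
lemma hasDerivAt_ip {m : ℕ} {f g : ℝ → Cn m} {f' g' : Cn m} {t : ℝ}
    (hf : HasDerivAt f f' t) (hg : HasDerivAt g g' t) :
    HasDerivAt (fun τ => ip (f τ) (g τ)) (ip f' (g t) + ip (f t) g') t := by
  unfold ip
  rw [← Finset.sum_add_distrib]
  refine HasDerivAt.fun_sum fun i _ => ?_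
  have h1 : HasDerivAt (fun τ => f τ i) (f' i) t := (hasDerivAt_pi.1 hf) i
  have h2 : HasDerivAt (fun τ => g τ i) (g' i) t := (hasDerivAt_pi.1 hg) i
  have h3 : HasDerivAt (fun τ => (starRingEnd ℂ) (f τ i)) ((starRingEnd ℂ) (f' i)) t := by
    exact (Complex.conjCLE.toContinuousLinearMap.hasFDerivAt (x := f t i)).comp_hasDerivAt t h1
  exact h3.mul h2

/-- local description of `M` by a holomorphic parametrisation of the unit sphere -/
structure Loc {n : ℕ} (m k : ℕ) (M : Set (Cn n)) (ψ : Cn m → Cn n) (κ : Cn n → Cn m)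
    (a : Cn n → Cn k) (U : Set (Cn n)) : Prop where
  hU : IsOpen U
  hψa : ∀ q, AnalyticAt ℂ ψ q
  hκ : AnalyticOnNhd ℂ κ U
  ha : AnalyticOnNhd ℂ a U
  hM : ∀ w ∈ U, w ∈ M ↔ (ψ (κ w) = w ∧ NN (κ w) = 1)
  hψM : ∀ q, NN q = 1 → ψ q ∈ M
  hl : ∀ q, ψ q ∈ U → κ (ψ q) = q
  ha0 : ∀ w ∈ U, a w = 0 ↔ ψ (κ w) = w
  hs : ∀ w ∈ U, w ∈ M → ∀ α, ∃ h, fderiv ℂ a w h = α ∧ fderiv ℂ κ w h = 0

variable {n m k : ℕ} {M : Set (Cn n)} {ψ : Cn m → Cn n} {κ : Cn n → Cn m}
  {a : Cn n → Cn k} {U : Set (Cn n)}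

namespace Loc

lemma hψ (L : Loc m k M ψ κ a U) : Differentiable ℂ ψ := fun q => (L.hψa q).differentiableAt

lemma κdiff (L : Loc m k M ψ κ a U) {z : Cn n} (hz : z ∈ U) : DifferentiableAt ℂ κ z :=
  (L.hκ z hz).differentiableAt

lemma adiff (L : Loc m k M ψ κ a U) {z : Cn n} (hz : z ∈ U) : DifferentiableAt ℂ a z :=
  (L.ha z hz).differentiableAt

lemma ψκ (L : Loc m k M ψ κ a U) {z : Cn n} (hz : z ∈ U) (hzM : z ∈ M) : ψ (κ z) = z :=
  ((L.hM z hz).1 hzM).1

lemma dκψ (L : Loc m k M ψ κ a U) {p : Cn m} (hp : ψ p ∈ U) (x : Cn m) :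
    fderiv ℂ κ (ψ p) (fderiv ℂ ψ p x) = x := by
  have h1 : ∀ᶠ q in 𝓝 p, κ (ψ q) = q := by
    have : ∀ᶠ q in 𝓝 p, ψ q ∈ U := L.hψ.continuous.continuousAt.eventually (L.hU.mem_nhds hp)
    filter_upwards [this] with q hq using L.hl q hq
  have h2 : HasFDerivAt (fun q => κ (ψ q)) ((fderiv ℂ κ (ψ p)).comp (fderiv ℂ ψ p)) p :=
    (L.κdiff hp).hasFDerivAt.comp p (L.hψ p).hasFDerivAt
  have h3 : HasFDerivAt (fun q : Cn m => q) ((fderiv ℂ κ (ψ p)).comp (fderiv ℂ ψ p)) p :=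
    h2.congr_of_eventuallyEq (by filter_upwards [h1] with q hq using hq.symm)
  have h4 := h3.unique (hasFDerivAt_id p)
  have := congrArg (fun T => T x) h4
  simpa using this

lemma dκψ' (L : Loc m k M ψ κ a U) {z : Cn n} (hz : z ∈ U) (h : ψ (κ z) = z) (x : Cn m) :
    fderiv ℂ κ z (fderiv ℂ ψ (κ z) x) = x := by
  have := L.dκψ (p := κ z) (by rw [h]; exact hz) x
  rwa [h] at this

/-- the curve in `M` through `ψ p` with velocity `Dψ(p) x` -/
lemma curve (L : Loc m k M ψ κ a U) {p x : Cn m} (hp : NN p = 1) (hx : (ip p x).re = 0) :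
    ∃ γ : ℝ → Cn n, γ 0 = ψ p ∧ (∀ τ, γ τ ∈ M) ∧ HasDerivAt γ (fderiv ℂ ψ p x) 0 := by
  set N := NN x with hN
  have hN0 : 0 ≤ N := NN_nonneg x
  set c : ℝ → ℝ := fun τ => (Real.sqrt (1 + τ ^ 2 * N))⁻¹ with hc
  have hpos : ∀ τ : ℝ, 0 < 1 + τ ^ 2 * N := fun τ => by positivity
  have hc2 : ∀ τ, c τ ^ 2 * (1 + τ ^ 2 * N) = 1 := by
    intro τ
    simp only [hc, inv_pow, Real.sq_sqrt (hpos τ).le]
    exact inv_mul_cancel₀ (hpos τ).ne'
  have hcd : HasDerivAt c 0 0 := by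
    have h1 : HasDerivAt (fun τ : ℝ => 1 + τ ^ 2 * N) 0 0 := by
      have := ((hasDerivAt_pow 2 (0 : ℝ)).mul_const N).const_add 1
      simpa using this
    have h2 : HasDerivAt c (-(0 / (2 * Real.sqrt (1 + 0 ^ 2 * N))) /
        (Real.sqrt (1 + 0 ^ 2 * N)) ^ 2) 0 := (h1.sqrt (by simp)).inv (by simp)
    simpa using h2
  refine ⟨fun τ => ψ (c τ • (p + τ • x)), ?_, ?_, ?_⟩
  · simp [hc]
  · intro τ
    apply L.hψM
    have h1 : (NN (c τ • (p + τ • x)) : ℂ) = 1 := by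
      rw [← ip_self]
      have e1 : c τ • (p + τ • x) = (c τ : ℂ) • (p + (τ : ℂ) • x) := by
        funext i; simp; ring
      rw [e1, ip_smul, ip_smul_left, ip_add, ip_add_left, ip_add_left, ip_smul, ip_smul,
        ip_smul_left, ip_smul_left, ip_self, ip_self, hp]
      simp only [Complex.conj_ofReal]
      have h3 : ip p x + ip x p = 0 := by
        rw [← ip_conj p x, Complex.add_conj, hx]; simp
      have h4 := hc2 τ
      have h5 : ((c τ : ℂ)) ^ 2 * (1 + (τ : ℂ) ^ 2 * (N : ℂ)) = 1 := by exact_mod_cast h4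
      have h6 : ip x p = - ip p x := by linear_combination h3
      rw [h6]
      push_cast
      rw [← hN]
      linear_combination h5
    exact_mod_cast h1
  · have h1 : HasDerivAt (fun τ : ℝ => c τ • (p + τ • x)) x 0 := by
      have h2 : HasDerivAt (fun τ : ℝ => p + τ • x) x 0 := by
        have := ((hasDerivAt_id (0 : ℝ)).smul_const x).const_add p
        simpa using this
      have h3 : HasDerivAt (fun τ : ℝ => c τ • (p + τ • x))
          (c 0 • x + (0 : ℝ) • (p + (0 : ℝ) • x)) 0 := hcd.smul h2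
      have e : c 0 = 1 := by simp [hc]
      rw [e, zero_smul, one_smul, add_zero] at h3
      exact h3
    have h0 : c 0 • (p + (0 : ℝ) • x) = p := by simp [hc]
    have h4 : HasFDerivAt ψ ((fderiv ℂ ψ p).restrictScalars ℝ) (c 0 • (p + (0 : ℝ) • x)) := by
      rw [h0]; exact (L.hψ p).hasFDerivAt.restrictScalars ℝ
    exact h4.comp_hasDerivAt 0 h1

lemma mem_tangent_iff (L : Loc m k M ψ κ a U) {z : Cn n} (hz : z ∈ U) (hzM : z ∈ M) (v : Cn n) :
    v ∈ tangent M z ↔ ∃ x, (ip (κ z) x).re = 0 ∧ v = fderiv ℂ ψ (κ z) x := by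
  obtain ⟨hψz, hN⟩ := (L.hM z hz).1 hzM
  constructor
  · intro hv
    let R : Submodule ℝ (Cn n) :=
      { carrier := {v | ∃ x, (ip (κ z) x).re = 0 ∧ v = fderiv ℂ ψ (κ z) x}
        add_mem' := by
          rintro _ _ ⟨x, hx, rfl⟩ ⟨y, hy, rfl⟩
          exact ⟨x + y, by rw [ip_add, Complex.add_re, hx, hy, add_zero], by rw [map_add]⟩
        zero_mem' := ⟨0, by simp [ip], by simp⟩
        smul_mem' := by
          rintro c _ ⟨x, hx, rfl⟩
          refine ⟨c • x, by rw [ip_rsmul]; simp [hx], ?_⟩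
          exact (((fderiv ℂ ψ (κ z)).restrictScalars ℝ).map_smul c x).symm }
    have : tangent M z ≤ R := by
      refine Submodule.span_le.2 ?_
      rintro v ⟨γ, hγ0, hγM, hγ⟩
      have hκz : HasFDerivAt κ ((fderiv ℂ κ z).restrictScalars ℝ) (γ 0) := by
        rw [hγ0]; exact (L.κdiff hz).hasFDerivAt.restrictScalars ℝ
      have h1 : HasDerivAt (fun τ => κ (γ τ)) (fderiv ℂ κ z v) 0 := hκz.comp_hasDerivAt 0 hγ
      have hγU : ∀ᶠ τ in 𝓝 (0 : ℝ), γ τ ∈ U := by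
        apply hγ.continuousAt.eventually
        rw [hγ0]; exact L.hU.mem_nhds hz
      have hψκ : HasFDerivAt ψ ((fderiv ℂ ψ (κ z)).restrictScalars ℝ) (κ (γ 0)) := by
        rw [hγ0]; exact (L.hψ _).hasFDerivAt.restrictScalars ℝ
      have h2 : HasDerivAt (fun τ => ψ (κ (γ τ))) (fderiv ℂ ψ (κ z) (fderiv ℂ κ z v)) 0 :=
        HasFDerivAt.comp_hasDerivAt (f := fun τ => κ (γ τ)) (0 : ℝ) hψκ h1
      have h3 : HasDerivAt γ (fderiv ℂ ψ (κ z) (fderiv ℂ κ z v)) 0 := by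
        refine h2.congr_of_eventuallyEq ?_
        filter_upwards [hγU, hγM] with τ h4 h5 using (L.ψκ h4 h5).symm
      have h6 := hasDerivAt_ip h1 h1
      have h7 : HasDerivAt (fun τ => ip (κ (γ τ)) (κ (γ τ))) 0 0 := by
        refine (hasDerivAt_const (0 : ℝ) (1 : ℂ)).congr_of_eventuallyEq ?_
        filter_upwards [hγU, hγM] with τ h4 h5
        rw [ip_self, ((L.hM _ h4).1 h5).2]; simp
      have h8 := h6.unique h7
      refine ⟨fderiv ℂ κ z v, ?_, hγ.unique h3⟩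
      simp only [hγ0] at h8
      rw [← ip_conj (κ z) (fderiv ℂ κ z v), add_comm, Complex.add_conj] at h8
      have h9 : (2 * (ip (κ z) (fderiv ℂ κ z v)).re : ℝ) = 0 := by exact_mod_cast h8
      linarith
    exact this hv
  · rintro ⟨x, hx, rfl⟩
    obtain ⟨γ, h0, hγM, hγ⟩ := L.curve hN hx
    exact Submodule.subset_span ⟨γ, by rw [h0, hψz], Eventually.of_forall hγM, hγ⟩

lemma mem_ctangent_iff (L : Loc m k M ψ κ a U) {z : Cn n} (hz : z ∈ U) (hzM : z ∈ M) (v : Cn n) :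
    v ∈ ctangent M z ↔ ∃ x, ip (κ z) x = 0 ∧ v = fderiv ℂ ψ (κ z) x := by
  obtain ⟨hψz, hN⟩ := (L.hM z hz).1 hzM
  unfold ctangent
  rw [Submodule.mem_inf, Submodule.mem_comap]
  change v ∈ tangent M z ∧ Complex.I • v ∈ tangent M z ↔ _
  rw [L.mem_tangent_iff hz hzM, L.mem_tangent_iff hz hzM]
  constructor
  · rintro ⟨⟨x, hx, hvx⟩, ⟨y, hy, hvy⟩⟩
    refine ⟨x, ?_, hvx⟩
    have h1 : y = Complex.I • x := by
      have hU' : ψ (κ z) ∈ U := by rw [hψz]; exact hz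
      have e1 := L.dκψ hU' y
      have e2 := L.dκψ hU' x
      rw [← hvy, map_smul, hvx, e2] at e1
      exact e1.symm
    rw [h1, ip_smul] at hy
    apply Complex.ext
    · simpa using hx
    · simpa using hy
  · rintro ⟨x, hx, hvx⟩
    refine ⟨⟨x, by rw [hx]; rfl, hvx⟩, ⟨Complex.I • x, by rw [ip_smul, hx]; simp, ?_⟩⟩
    rw [hvx, map_smul]

end Loc

end Pool.Agent.Helper123.CRX
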