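import Pool.Agent.Helper123.CRX.Levi

set_option autoImplicit false

open Topology Filter Set
open scoped ContDiff

namespace Pool.Agent.Helper123.CRX

variable {n m k : ℕ} {M : Set (Cn n)} {ψ : Cn m → Cn n} {κ : Cn n → Cn m}
  {a : Cn n → Cn k} {U : Set (Cn n)}

lemma contDiff_ip_left {m : ℕ} (u : Cn m) : ContDiff ℝ ∞ (fun q : Cn m => ip q u) := by
  unfold ip
  refine ContDiff.sum fun i _ => ?_
  refine ContDiff.mul ?_ contDiff_const
  exact Complex.conjCLE.contDiff.comp (contDiff_apply ℝ ℂ i)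

namespace Loc

/-- existence of a tangential field with prescribed value, and its bracket is tangential -/
lemma exists_levi (L : Loc m k M ψ κ a U) {z : Cn n} (hz : z ∈ U) (hzM : z ∈ M)
    {x : Cn m} (hx : ip (κ z) x = 0) :
    ∃ b ∈ tangent M z, LeviVal M z (fderiv ℂ ψ (κ z) x) b := by
  obtain ⟨hψz, hN⟩ := (L.hM z hz).1 hzM
  set p := κ z with hp
  let Y : Cn m → Cn m := fun q => x - ip q x • q
  let X : Cn n → Cn n := fun w => fderiv ℂ ψ (κ w) (Y (κ w))
  have hYs : ContDiff ℝ ∞ Y := contDiff_const.sub ((contDiff_ip_left x).smul contDiff_id)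
  have hYp : Y p = x := by simp [Y, hx]
  have hκs : ContDiffAt ℝ ∞ κ z := ((L.hκ z hz).restrictScalars (𝕜 := ℝ)).contDiffAt
  have hψs : ContDiffAt ℝ ∞ (fderiv ℂ ψ) (κ z) :=
    (((L.hψa p).fderiv).restrictScalars (𝕜 := ℝ)).contDiffAt
  have hXs : ContDiffAt ℝ ∞ X z := by
    have h1 : ContDiffAt ℝ ∞ (fun w => (fderiv ℂ ψ (κ w), Y (κ w))) z :=
      (hψs.comp z hκs).prodMk (hYs.contDiffAt.comp z hκs)
    have hb := ((isBoundedBilinearMap_apply (𝕜 := ℂ) (E := Cn m) (F := Cn n)).contDiff (n := ∞)).restrict_scalars ℝ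
    exact hb.contDiffAt.comp z h1
  have hXz : X z = fderiv ℂ ψ p x := by
    simp only [X, ← hp, hYp]
  have hXT : ∀ᶠ w in 𝓝[M] z, X w ∈ ctangent M w := by
    have : ∀ᶠ w in 𝓝[M] z, w ∈ M := self_mem_nhdsWithin
    filter_upwards [this, mem_nhdsWithin_of_mem_nhds (L.hU.mem_nhds hz)] with w hwM hwU
    rw [L.mem_ctangent_iff hwU hwM]
    refine ⟨Y (κ w), ?_, rfl⟩
    simp only [Y]
    rw [ip_sub, ip_smul, ip_self, ((L.hM w hwU).1 hwM).2]
    simp
  -- derivative of X along Dψ(p) y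
  have hXd : DifferentiableAt ℝ X z := hXs.differentiableAt (by simp)
  have key : ∀ y : Cn m, fderiv ℝ X z (fderiv ℂ ψ p y) =
      fderiv ℂ ψ p (-(ip y x • p)) + fderiv ℂ (fderiv ℂ ψ) p y x := by
    intro y
    have hl : HasDerivAt (fun τ : ℝ => p + τ • y) y 0 := by
      have := ((hasDerivAt_id (0 : ℝ)).smul_const y).const_add p
      simpa using this
    have h0 : p + (0 : ℝ) • y = p := by simp
    have h1 : HasDerivAt (fun τ : ℝ => ψ (p + τ • y)) (fderiv ℂ ψ p y) 0 :=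
      hasDerivAt_hol (γ := fun τ : ℝ => p + τ • y) (L.hψ p) h0 hl
    have h2 : HasDerivAt (fun τ : ℝ => X (ψ (p + τ • y))) (fderiv ℝ X z (fderiv ℂ ψ p y)) 0 :=
      hasDerivAt_smooth (γ := fun τ : ℝ => ψ (p + τ • y)) hXd (by simp only [h0]; exact hψz) h1
    have h3 : HasDerivAt (fun τ : ℝ => fderiv ℂ ψ (p + τ • y)) (fderiv ℂ (fderiv ℂ ψ) p y) 0 :=
      hasDerivAt_hol (γ := fun τ : ℝ => p + τ • y) ((L.hψa p).fderiv).differentiableAt h0 hl
    have h4 : HasDerivAt (fun τ : ℝ => Y (p + τ • y)) (-(ip y x • p)) 0 := by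
      have e1 : (fun τ : ℝ => Y (p + τ • y)) =
          fun τ : ℝ => x - ip (p + τ • y) x • (p + τ • y) := rfl
      have e2 : HasDerivAt (fun τ : ℝ => ip (p + τ • y) x) (ip y x) 0 := by
        have := hasDerivAt_ip hl (hasDerivAt_const (0 : ℝ) x)
        simpa [ip] using this
      have e3 := ((e2.smul hl).const_sub x)
      rw [e1]
      refine HasDerivAt.congr_deriv (f := fun τ : ℝ => x - ip (p + τ • y) x • (p + τ • y)) e3 ?_
      simp [h0, hx]
    have h5 := hasDerivAt_apply (A := fderiv ℂ ψ) (Y := Y) (γ := fun τ : ℝ => p + τ • y) h3 h4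
    have h6 : HasDerivAt (fun τ : ℝ => X (ψ (p + τ • y)))
        (fderiv ℂ ψ (p + (0 : ℝ) • y) (-(ip y x • p)) +
          fderiv ℂ (fderiv ℂ ψ) p y (Y (p + (0 : ℝ) • y))) 0 := by
      refine h5.congr_of_eventuallyEq ?_
      have hc : ∀ᶠ τ : ℝ in 𝓝 0, ψ (p + τ • y) ∈ U := by
        apply h1.continuousAt.eventually
        simp only [h0, hψz]; exact L.hU.mem_nhds hz
      filter_upwards [hc] with τ hτ
      simp only [X]
      rw [L.hl _ hτ]
    have h7 := h2.unique h6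
    rw [h7, h0, hYp]
  have k1 := key x
  have k2 := key (Complex.I • x)
  have s1 : fderiv ℂ ψ p (Complex.I • x) = Complex.I • fderiv ℂ ψ p x := map_smul _ _ _
  rw [s1] at k2
  refine ⟨Complex.I • (fderiv ℝ X z (fderiv ℂ ψ p x)) -
    fderiv ℝ X z (Complex.I • fderiv ℂ ψ p x), ?_, X, hXs, hXT, hXz, rfl⟩
  rw [L.mem_tangent_iff hz hzM]
  refine ⟨(-2 * Complex.I * NN x) • p, ?_, ?_⟩
  · rw [← hp, ip_smul, ip_self, hN]
    simp
  · rw [k1, k2, ← hp]
    have s2 : fderiv ℂ (fderiv ℂ ψ) p (Complex.I • x) = Complex.I • fderiv ℂ (fderiv ℂ ψ) p x :=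
      map_smul _ _ _
    rw [s2, ip_smul_left, ip_self]
    simp only [map_neg, map_smul, Complex.conj_I]
    rw [show (Complex.I • fderiv ℂ (fderiv ℂ ψ) p x) x =
      Complex.I • (fderiv ℂ (fderiv ℂ ψ) p x) x from rfl]
    module

lemma finrank_ctangent (L : Loc m k M ψ κ a U) {z : Cn n} (hz : z ∈ U) (hzM : z ∈ M) :
    Module.finrank ℝ (ctangent M z) + 2 = 2 * m := by
  obtain ⟨hψz, hN⟩ := (L.hM z hz).1 hzM
  set p := κ z with hp
  let l : Cn m →ₗ[ℝ] ℂ :=
    { toFun := fun x => ip p x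
      map_add' := fun x y => ip_add p x y
      map_smul' := fun c x => by rw [ip_rsmul]; simp }
  let T : Cn m →ₗ[ℝ] Cn n := (fderiv ℂ ψ p).toLinearMap.restrictScalars ℝ
  have hT : Function.Injective T := by
    intro x y hxy
    have e1 := L.dκψ' hz hψz x
    have e2 := L.dκψ' hz hψz y
    rw [← e1, ← e2]
    exact congrArg _ hxy
  have h1 : ctangent M z = (LinearMap.ker l).map T := by
    ext v
    rw [L.mem_ctangent_iff hz hzM, Submodule.mem_map]
    constructor
    · rintro ⟨x, hx, rfl⟩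
      exact ⟨x, hx, rfl⟩
    · rintro ⟨x, hx, rfl⟩
      exact ⟨x, hx, rfl⟩
  rw [h1, ← (Submodule.equivMapOfInjective T hT (LinearMap.ker l)).finrank_eq]
  have h2 := l.finrank_range_add_finrank_ker
  have h3 : LinearMap.range l = ⊤ := by
    rw [LinearMap.range_eq_top]
    intro c
    refine ⟨c • p, ?_⟩
    change ip p (c • p) = c
    rw [ip_smul, ip_self, hN]; simp
  rw [h3, finrank_top, Complex.finrank_real_complex] at h2
  have h4 : Module.finrank ℝ (Cn m) = 2 * m := by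
    rw [Module.finrank_pi_fintype]
    simp [Complex.finrank_real_complex, mul_comm]
  omega

end Loc

end Pool.Agent.Helper123.CRX
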