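import Pool.Agent.Helper123.CRX.Cond

set_option autoImplicit false

open Topology Filter Set
open scoped ContDiff

namespace Pool.Agent.Helper123.CRX

variable {n m k : ℕ} {M : Set (Cn n)} {ψ : Cn m → Cn n} {κ : Cn n → Cn m}
  {a : Cn n → Cn k} {U : Set (Cn n)}

namespace Loc

/-- the contact functional on the tangent space -/
noncomputable def lamT (κ : Cn n → Cn m) (M : Set (Cn n)) (z : Cn n) : tangent M z →ₗ[ℝ] ℝ where
  toFun b := -(ip (κ z) (fderiv ℂ κ z (b : Cn n))).im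
  map_add' b c := by
    simp only [Submodule.coe_add, map_add, ip_add, Complex.add_im]; ring
  map_smul' c b := by
    have : fderiv ℂ κ z ((c • b : tangent M z) : Cn n) = c • fderiv ℂ κ z (b : Cn n) :=
      ((fderiv ℂ κ z).restrictScalars ℝ).map_smul c b
    rw [this, ip_rsmul]
    simp

lemma lamT_zero_iff (L : Loc m k M ψ κ a U) {z : Cn n} (hz : z ∈ U) (hzM : z ∈ M)
    (b : tangent M z) : lamT κ M z b = 0 ↔ (b : Cn n) ∈ ctangent M z := by
  obtain ⟨hψz, hN⟩ := (L.hM z hz).1 hzM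
  obtain ⟨y, hy, hby⟩ := (L.mem_tangent_iff hz hzM _).1 b.2
  have h1 : lamT κ M z b = -(ip (κ z) y).im := by
    change -(ip (κ z) (fderiv ℂ κ z (b : Cn n))).im = _
    rw [hby, L.dκψ' hz hψz]
  rw [h1, L.mem_ctangent_iff hz hzM]
  constructor
  · intro h
    refine ⟨y, ?_, hby⟩
    apply Complex.ext
    · simpa using hy
    · have : (ip (κ z) y).im = 0 := by linarith
      simpa using this
  · rintro ⟨x, hx, hbx⟩
    have : y = x := by
      rw [← L.dκψ' hz hψz y, ← hby, hbx, L.dκψ' hz hψz]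
    rw [this, hx]; simp

noncomputable def lamQ (L : Loc m k M ψ κ a U) {z : Cn n} (hz : z ∈ U) (hzM : z ∈ M) :
    NSp M z →ₗ[ℝ] ℝ :=
  Submodule.liftQ _ (lamT κ M z) (by
    intro b hb
    rw [Submodule.mem_comap] at hb
    exact (L.lamT_zero_iff hz hzM b).2 hb)

lemma lamQ_mk (L : Loc m k M ψ κ a U) {z : Cn n} (hz : z ∈ U) (hzM : z ∈ M) (b : tangent M z) :
    L.lamQ hz hzM (Submodule.Quotient.mk b) = lamT κ M z b := rfl

lemma lamQ_inj (L : Loc m k M ψ κ a U) {z : Cn n} (hz : z ∈ U) (hzM : z ∈ M) :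
    Function.Injective (L.lamQ hz hzM) := by
  rw [injective_iff_map_eq_zero]
  intro q hq
  obtain ⟨b, rfl⟩ := Submodule.Quotient.mk_surjective _ q
  rw [lamQ_mk, L.lamT_zero_iff hz hzM] at hq
  rw [Submodule.Quotient.mk_eq_zero, Submodule.mem_comap]
  exact hq

lemma lamQ_pos (L : Loc m k M ψ κ a U) {z : Cn n} (hz : z ∈ U) (hzM : z ∈ M)
    {q : NSp M z} (hq : q ∈ KSet M z) : 0 < L.lamQ hz hzM q := by
  obtain ⟨hψz, hN⟩ := (L.hM z hz).1 hzM
  obtain ⟨v, hv, hv1, b, hb, rfl⟩ := hq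
  obtain ⟨x, hx, rfl⟩ := (L.mem_ctangent_iff hz hzM v).1 hv
  rw [lamQ_mk]
  change 0 < -(ip (κ z) (fderiv ℂ κ z (b : Cn n))).im
  rw [L.levi hz hzM hx hb]
  have h1 : 0 < NN x := by
    apply NN_pos
    rintro rfl
    simp at hv1
  have h2 : (-2 * Complex.I * (NN x : ℂ)).im = -2 * NN x := by simp
  rw [h2]
  linarith

lemma condL_at (L : Loc m k M ψ κ a U) (hm : 2 ≤ m) {z : Cn n} (hz : z ∈ U) (hzM : z ∈ M) :
    (0 : NSp M z) ∉ convexHull ℝ (KSet M z) ∧
    (interior ((Submodule.span NNReal (KSet M z) : Submodule NNReal (NSp M z)) :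
      Set (NSp M z))).Nonempty := by
  obtain ⟨hψz, hN⟩ := (L.hM z hz).1 hzM
  constructor
  · intro h0
    have h1 : convexHull ℝ (KSet M z) ⊆ {q | 0 < L.lamQ hz hzM q} := by
      apply convexHull_min
      · intro q hq
        exact L.lamQ_pos hz hzM hq
      · exact convex_halfSpace_gt (L.lamQ hz hzM).isLinear 0
    have h2 := h1 h0
    simp at h2
  · -- a nonzero complex tangent vector
    have hfr := L.finrank_ctangent hz hzM
    have hpos : 0 < Module.finrank ℝ (ctangent M z) := by omega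
    have hnt : Nontrivial (ctangent M z) := Module.nontrivial_of_finrank_pos hpos
    obtain ⟨⟨v, hv⟩, hv0⟩ := exists_ne (0 : ctangent M z)
    have hv0' : v ≠ 0 := fun h => hv0 (Subtype.ext h)
    have hNv : 0 < NN v := NN_pos v hv0'
    set c : ℝ := (Real.sqrt (NN v))⁻¹ with hc
    have hcv : c • v ∈ ctangent M z := (ctangent M z).smul_mem c hv
    have hunit : ∑ i, ‖(c • v) i‖ ^ 2 = 1 := by
      have e1 : ∑ i, ‖(c • v) i‖ ^ 2 = c ^ 2 * NN v := by
        unfold NN
        rw [Finset.mul_sum]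
        refine Finset.sum_congr rfl fun i _ => ?_
        rw [Pi.smul_apply, norm_smul, mul_pow, Real.norm_eq_abs, sq_abs]
      rw [e1, hc, inv_pow, Real.sq_sqrt hNv.le, inv_mul_cancel₀ hNv.ne']
    obtain ⟨x, hx, hvx⟩ := (L.mem_ctangent_iff hz hzM _).1 hcv
    obtain ⟨b, hbT, hb⟩ := L.exists_levi hz hzM hx
    rw [← hvx] at hb
    set q₀ : NSp M z := Submodule.Quotient.mk (⟨b, hbT⟩ : tangent M z) with hq₀
    have hq₀K : q₀ ∈ KSet M z := ⟨c • v, hcv, hunit, ⟨b, hbT⟩, hb, rfl⟩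
    have hpos₀ := L.lamQ_pos hz hzM hq₀K
    have hsub : {q : NSp M z | 0 < L.lamQ hz hzM q} ⊆
        ((Submodule.span NNReal (KSet M z) : Submodule NNReal (NSp M z)) : Set (NSp M z)) := by
      intro q hq
      have hq' : 0 < L.lamQ hz hzM q := hq
      have e : q = (⟨L.lamQ hz hzM q / L.lamQ hz hzM q₀, by positivity⟩ : NNReal) • q₀ := by
        apply L.lamQ_inj hz hzM
        have : L.lamQ hz hzM ((⟨L.lamQ hz hzM q / L.lamQ hz hzM q₀, by positivity⟩ : NNReal) • q₀) =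
            (L.lamQ hz hzM q / L.lamQ hz hzM q₀) * L.lamQ hz hzM q₀ :=
          (L.lamQ hz hzM).map_smul (L.lamQ hz hzM q / L.lamQ hz hzM q₀) q₀
        rw [this]
        field_simp
      rw [e]
      exact Submodule.smul_mem _ _ (Submodule.subset_span hq₀K)
    have hopen : IsOpen {q : NSp M z | 0 < L.lamQ hz hzM q} := by
      rw [← (Submodule.isQuotientMap_mkQ _).isOpen_preimage]
      have : Continuous (lamT κ M z) := LinearMap.continuous_of_finiteDimensional _
      exact isOpen_lt continuous_const this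
    exact ⟨q₀, interior_maximal hsub hopen hpos₀⟩

/-- derivative of `a` along the parametrisation vanishes -/
lemma daψ (L : Loc m k M ψ κ a U) {w : Cn n} (hw : w ∈ U) (hwM : w ∈ M) (x : Cn m) :
    fderiv ℂ a w (fderiv ℂ ψ (κ w) x) = 0 := by
  have hψw := L.ψκ hw hwM
  have h1 : HasFDerivAt (fun q => a (ψ q)) ((fderiv ℂ a w).comp (fderiv ℂ ψ (κ w))) (κ w) := by
    have h2 : HasFDerivAt a (fderiv ℂ a w) (ψ (κ w)) := by
      rw [hψw]; exact (L.adiff hw).hasFDerivAt
    exact h2.comp _ (L.hψ _).hasFDerivAt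
  have h3 : ∀ᶠ q in 𝓝 (κ w), a (ψ q) = 0 := by
    have : ∀ᶠ q in 𝓝 (κ w), ψ q ∈ U := by
      apply L.hψ.continuous.continuousAt.eventually
      rw [hψw]; exact L.hU.mem_nhds hw
    filter_upwards [this] with q hq
    exact (L.ha0 _ hq).2 (by rw [L.hl q hq])
  have h4 : HasFDerivAt (fun q => a (ψ q)) (0 : Cn m →L[ℂ] Cn k) (κ w) :=
    (hasFDerivAt_const (0 : Cn k) (κ w)).congr_of_eventuallyEq h3
  have h5 := congrArg (fun T => T x) (h1.unique h4)
  simpa using h5

lemma submanifold_at (L : Loc m k M ψ κ a U) {z : Cn n} (hz : z ∈ U) :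
    ∃ (d : ℕ) (U : Set (Cn n)) (ρ : Cn n → (Fin d → ℝ)), IsOpen U ∧ z ∈ U ∧
    AnalyticOnNhd ℝ ρ U ∧ (∀ w ∈ M ∩ U, Function.Surjective (fderiv ℝ ρ w)) ∧
    M ∩ U = {w | w ∈ U ∧ ρ w = 0} := by
  let F := Cn k × ℝ
  let ρF : Cn n → F := fun w => (a w, NN (κ w) - 1)
  have hF : AnalyticOnNhd ℝ ρF U := by
    intro w hw
    refine AnalyticAt.prod ((L.ha w hw).restrictScalars (𝕜 := ℝ)) ?_
    refine AnalyticAt.sub ?_ analyticAt_const
    unfold NN
    refine Finset.analyticAt_fun_sum _ fun i _ => ?_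
    have h1 : AnalyticAt ℝ (fun w => κ w i) w := by
      have := (L.hκ w hw).restrictScalars (𝕜 := ℝ)
      exact ((ContinuousLinearMap.proj (R := ℝ) (φ := fun _ : Fin m => ℂ) i).analyticAt _).comp this
    have h2 : AnalyticAt ℝ (fun w => (κ w i).re) w := (Complex.reCLM.analyticAt _).comp h1
    have h3 : AnalyticAt ℝ (fun w => (κ w i).im) w := (Complex.imCLM.analyticAt _).comp h1
    have h4 : (fun w => ‖κ w i‖ ^ 2) = fun w => (κ w i).re * (κ w i).re + (κ w i).im * (κ w i).im := by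
      funext w
      rw [← Complex.normSq_eq_norm_sq, Complex.normSq_apply]
    rw [h4]
    exact (h2.mul h2).add (h3.mul h3)
  let d := Module.finrank ℝ F
  let e : F ≃L[ℝ] (Fin d → ℝ) := ContinuousLinearEquiv.ofFinrankEq (by simp [d])
  refine ⟨d, U, fun w => e (ρF w), L.hU, hz, ?_, ?_, ?_⟩
  · intro w hw
    exact (e.toContinuousLinearMap.analyticAt _).comp (hF w hw)
  · rintro w ⟨hwM, hw⟩
    obtain ⟨hψw, hN⟩ := (L.hM w hw).1 hwM
    have hd : HasFDerivAt ρF (fderiv ℝ ρF w) w := (hF w hw).differentiableAt.hasFDerivAt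
    have hcomp : HasFDerivAt (fun w => e (ρF w)) (e.toContinuousLinearMap.comp (fderiv ℝ ρF w)) w :=
      e.toContinuousLinearMap.hasFDerivAt.comp w hd
    rw [hcomp.fderiv]
    have hs : Function.Surjective (fderiv ℝ ρF w) := by
      rintro ⟨α, r⟩
      obtain ⟨h₀, h1, h2⟩ := L.hs w hw hwM α
      set h := h₀ + fderiv ℂ ψ (κ w) (((r / 2 : ℝ) : ℂ) • κ w) with hh
      refine ⟨h, ?_⟩
      have hl : HasDerivAt (fun τ : ℝ => w + τ • h) h 0 := by
        have := ((hasDerivAt_id (0 : ℝ)).smul_const h).const_add w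
        simpa using this
      have h0 : w + (0 : ℝ) • h = w := by simp
      have h3 : HasDerivAt (fun τ : ℝ => ρF (w + τ • h)) (fderiv ℝ ρF w h) 0 := by
        have hd' : HasFDerivAt ρF (fderiv ℝ ρF w) (w + (0 : ℝ) • h) := by rw [h0]; exact hd
        exact HasFDerivAt.comp_hasDerivAt (f := fun τ : ℝ => w + τ • h) (0 : ℝ) hd' hl
      have ha' : HasDerivAt (fun τ : ℝ => a (w + τ • h)) (fderiv ℂ a w h) 0 :=
        hasDerivAt_hol (γ := fun τ : ℝ => w + τ • h) (L.adiff hw) h0 hl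
      have hk' : HasDerivAt (fun τ : ℝ => κ (w + τ • h)) (fderiv ℂ κ w h) 0 :=
        hasDerivAt_hol (γ := fun τ : ℝ => w + τ • h) (L.κdiff hw) h0 hl
      have hda : fderiv ℂ a w h = α := by
        rw [hh, map_add, h1, L.daψ hw hwM, add_zero]
      have hdk : fderiv ℂ κ w h = ((r / 2 : ℝ) : ℂ) • κ w := by
        rw [hh, map_add, h2, zero_add, L.dκψ' hw hψw]
      have hn := hasDerivAt_ip hk' hk'
      have hn2 : HasDerivAt (fun τ : ℝ => NN (κ (w + τ • h)) - 1) r 0 := by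
        have h5 := (Complex.reCLM.hasFDerivAt).comp_hasDerivAt (0 : ℝ) hn
        have h6 : HasDerivAt (fun τ : ℝ => NN (κ (w + τ • h)))
            ((ip (fderiv ℂ κ w h) (κ (w + (0 : ℝ) • h)) +
              ip (κ (w + (0 : ℝ) • h)) (fderiv ℂ κ w h)).re) 0 := by
          refine HasDerivAt.congr_of_eventuallyEq h5 (Eventually.of_forall fun τ => ?_)
          simp only [Function.comp, ip_self]
          rfl
        have h7 := h6.sub_const 1
        refine h7.congr_deriv ?_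
        rw [h0, hdk, ip_smul_left, ip_smul, ip_self, hN]
        simp only [Complex.conj_ofReal, Complex.ofReal_one, mul_one, Complex.add_re,
          Complex.ofReal_re]
        ring
      have h8 : HasDerivAt (fun τ : ℝ => ρF (w + τ • h)) (α, r) 0 := by
        rw [hda] at ha'
        exact ha'.prodMk hn2
      exact h3.unique h8
    intro y
    obtain ⟨h, hh⟩ := hs (e.symm y)
    refine ⟨h, ?_⟩
    change e (fderiv ℝ ρF w h) = y
    rw [hh]; simp
  · ext w
    simp only [mem_inter_iff]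
    constructor
    · rintro ⟨hwM, hw⟩
      obtain ⟨hψw, hN⟩ := (L.hM w hw).1 hwM
      refine ⟨hw, ?_⟩
      have : ρF w = 0 := by
        simp only [ρF]
        rw [(L.ha0 w hw).2 hψw, hN, sub_self]; rfl
      rw [this]; simp
    · rintro ⟨hw, h0⟩
      have h1 : ρF w = 0 := by
        have := congrArg e.symm h0
        simpa using this
      have h2 : a w = 0 := congrArg Prod.fst h1
      have h3 : NN (κ w) - 1 = 0 := congrArg Prod.snd h1
      exact ⟨(L.hM w hw).2 ⟨(L.ha0 w hw).1 h2, by linarith⟩, hw⟩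

end Loc

/-- everything together -/
theorem crL_of_loc {M : Set (Cn n)} {ψ : Cn m → Cn n} (hm : 2 ≤ m)
    (h : ∀ z ∈ M, ∃ (κ : Cn n → Cn m) (a : Cn n → Cn k) (U : Set (Cn n)),
      Loc m k M ψ κ a U ∧ z ∈ U) :
    RealAnalyticSubmanifold M ∧ HasCRDim M (m - 1) ∧ CondL M := by
  refine ⟨?_, ?_, ?_⟩
  · intro z hz
    obtain ⟨κ, a, U, L, hzU⟩ := h z hz
    exact L.submanifold_at hzU
  · intro z hz
    obtain ⟨κ, a, U, L, hzU⟩ := h z hz
    have := L.finrank_ctangent hzU hz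
    omega
  · intro z hz
    obtain ⟨κ, a, U, L, hzU⟩ := h z hz
    exact L.condL_at hm hzU hz

end Pool.Agent.Helper123.CRX
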