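import Mathlib

set_option autoImplicit false

open Topology Filter Set
open scoped ContDiff

namespace Pool.Agent.Helper123.CRX

/-- complex Euclidean space `ℂⁿ` -/
abbrev Cn (n : ℕ) := Fin n → ℂ

/-- multiplication by `i`, as a real linear map -/
noncomputable def mulI (n : ℕ) : Cn n →ₗ[ℝ] Cn n where
  toFun v := Complex.I • v
  map_add' u v := smul_add _ _ _
  map_smul' r v := by
    simp only [RingHom.id_apply]
    exact smul_comm _ _ _

/-- `M` is an embedded real-analytic submanifold of `ℂⁿ`: near each of its points it is the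
zero set of a real-analytic map to some `ℝ^d` whose differential is onto at the points of `M`. -/
def RealAnalyticSubmanifold {n : ℕ} (M : Set (Cn n)) : Prop :=
  ∀ z ∈ M, ∃ (d : ℕ) (U : Set (Cn n)) (ρ : Cn n → (Fin d → ℝ)), IsOpen U ∧ z ∈ U ∧
    AnalyticOnNhd ℝ ρ U ∧ (∀ w ∈ M ∩ U, Function.Surjective (fderiv ℝ ρ w)) ∧
    M ∩ U = {w | w ∈ U ∧ ρ w = 0}

/-- the tangent space `T_z M`: spanned by the velocities at `z` of curves in `M` -/
noncomputable def tangent {n : ℕ} (M : Set (Cn n)) (z : Cn n) : Submodule ℝ (Cn n) :=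
  Submodule.span ℝ {v | ∃ γ : ℝ → Cn n, γ 0 = z ∧ (∀ᶠ τ in 𝓝 (0 : ℝ), γ τ ∈ M) ∧
    HasDerivAt γ v 0}

/-- the complex tangent space `T^c_z M = T_z M ∩ i T_z M` -/
noncomputable def ctangent {n : ℕ} (M : Set (Cn n)) (z : Cn n) : Submodule ℝ (Cn n) :=
  tangent M z ⊓ (tangent M z).comap (mulI n)

/-- `M` has CR dimension `k`: every complex tangent space has complex dimension `k` -/
def HasCRDim {n : ℕ} (M : Set (Cn n)) (k : ℕ) : Prop :=
  ∀ z ∈ M, Module.finrank ℝ (ctangent M z) = 2 * k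

/-- `b` is the bracket `[X, iX](z)` for some smooth field `X` along `M` near `z` with values in
the complex tangent spaces and `X(z) = v`; its class modulo `T^c_z M` is the value `L_z(v)` of
the Levi form -/
def LeviVal {n : ℕ} (M : Set (Cn n)) (z v b : Cn n) : Prop :=
  ∃ X : Cn n → Cn n, ContDiffAt ℝ ∞ X z ∧ (∀ᶠ w in 𝓝[M] z, X w ∈ ctangent M w) ∧ X z = v ∧
    b = Complex.I • (fderiv ℝ X z v) - fderiv ℝ X z (Complex.I • v)

/-- the normal space `N_z M = T_z M / T^c_z M` -/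
abbrev NSp {n : ℕ} (M : Set (Cn n)) (z : Cn n) : Type :=
  (tangent M z) ⧸ ((ctangent M z).comap (tangent M z).subtype)

/-- the set `K_z` of values of the Levi form on the unit sphere of `T^c_z M` -/
def KSet {n : ℕ} (M : Set (Cn n)) (z : Cn n) : Set (NSp M z) :=
  {q | ∃ v ∈ ctangent M z, ∑ i, ‖v i‖ ^ 2 = 1 ∧ ∃ b : tangent M z, LeviVal M z v b ∧
    q = Submodule.Quotient.mk b}

/-- condition (L) at all points: `0` is not in the convex hull of `K_z`, and the convex cone
generated by `K_z` has non-empty interior in `N_z M` -/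
def CondL {n : ℕ} (M : Set (Cn n)) : Prop :=
  ∀ z ∈ M, (0 : NSp M z) ∉ convexHull ℝ (KSet M z) ∧
    (interior ((Submodule.span NNReal (KSet M z) : Submodule NNReal (NSp M z)) :
      Set (NSp M z))).Nonempty

/-- `f` is a CR mapping of class `C^∞` from `M₁` to `M₂` -/
def SmoothCRMap {n : ℕ} (M₁ M₂ : Set (Cn n)) (f : Cn n → Cn n) : Prop :=
  MapsTo f M₁ M₂ ∧ ∀ z ∈ M₁, ∃ g : Cn n → Cn n, ContDiffAt ℝ ∞ g z ∧
    (∀ᶠ w in 𝓝[M₁] z, g w = f w) ∧
    ∀ v ∈ ctangent M₁ z, fderiv ℝ g z v ∈ ctangent M₂ (f z) ∧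
      fderiv ℝ g z (Complex.I • v) = Complex.I • fderiv ℝ g z v

end Pool.Agent.Helper123.CRX
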