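import Pool.Agent.Helper123.CRX.Cond2

set_option autoImplicit false

open Topology Filter Set
open scoped ContDiff

namespace Pool.Agent.Helper123.CRX

/-- the map `(s,t) ↦ (s²,s³,t,st)` -/
noncomputable def phi (q : Cn 2) : Cn 4 := ![q 0 ^ 2, q 0 ^ 3, q 1, q 0 * q 1]

/-- the sphere in `ℂ^m` -/
def Sph (m : ℕ) : Set (Cn m) := {q | ∑ i, ‖q i‖ ^ 2 = 1}

/-- the CR manifold `M₁` -/
noncomputable def M₁ : Set (Cn 4) := phi '' Sph 2

noncomputable def k1 (w : Cn 4) : Cn 2 := ![w 3 / w 2, w 2]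
noncomputable def k2 (w : Cn 4) : Cn 2 := ![w 1 / w 0, w 2]
noncomputable def a1 (w : Cn 4) : Cn 2 := ![w 0 - (w 3 / w 2) ^ 2, w 1 - (w 3 / w 2) ^ 3]
noncomputable def a2 (w : Cn 4) : Cn 2 := ![w 0 - (w 1 / w 0) ^ 2, w 3 - w 2 * (w 1 / w 0)]

lemma analytic_coord {n : ℕ} (i : Fin n) (w : Cn n) : AnalyticAt ℂ (fun w : Cn n => w i) w :=
  (ContinuousLinearMap.proj (R := ℂ) (φ := fun _ : Fin n => ℂ) i).analyticAt w

lemma k1_analytic {w : Cn 4} (h : w 2 ≠ 0) : AnalyticAt ℂ k1 w := by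
  rw [analyticAt_pi_iff]
  intro i
  fin_cases i
  · exact (analytic_coord 3 w).div (analytic_coord 2 w) h
  · exact analytic_coord 2 w

lemma k2_analytic {w : Cn 4} (h : w 0 ≠ 0) : AnalyticAt ℂ k2 w := by
  rw [analyticAt_pi_iff]
  intro i
  fin_cases i
  · exact (analytic_coord 1 w).div (analytic_coord 0 w) h
  · exact analytic_coord 2 w

lemma a1_analytic {w : Cn 4} (h : w 2 ≠ 0) : AnalyticAt ℂ a1 w := by
  rw [analyticAt_pi_iff]
  intro i
  fin_cases i
  · exact (analytic_coord 0 w).sub (((analytic_coord 3 w).div (analytic_coord 2 w) h).pow 2)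
  · exact (analytic_coord 1 w).sub (((analytic_coord 3 w).div (analytic_coord 2 w) h).pow 3)

lemma a2_analytic {w : Cn 4} (h : w 0 ≠ 0) : AnalyticAt ℂ a2 w := by
  rw [analyticAt_pi_iff]
  intro i
  fin_cases i
  · exact (analytic_coord 0 w).sub (((analytic_coord 1 w).div (analytic_coord 0 w) h).pow 2)
  · exact (analytic_coord 3 w).sub ((analytic_coord 2 w).mul
      ((analytic_coord 1 w).div (analytic_coord 0 w) h))

lemma phi_analytic (q : Cn 2) : AnalyticAt ℂ phi q := by
  rw [analyticAt_pi_iff]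
  intro i
  fin_cases i
  · exact (analytic_coord 0 q).pow 2
  · exact (analytic_coord 0 q).pow 3
  · exact analytic_coord 1 q
  · exact (analytic_coord 0 q).mul (analytic_coord 1 q)

lemma isOpen_ne {n : ℕ} (i : Fin n) : IsOpen {w : Cn n | w i ≠ 0} :=
  isOpen_ne_fun (continuous_apply i) continuous_const

lemma k1_phi {q : Cn 2} (h : q 1 ≠ 0) : k1 (phi q) = q := by
  funext i
  fin_cases i
  · simp [k1, phi, h]
  · simp [k1, phi]

lemma k2_phi {q : Cn 2} (h : q 0 ≠ 0) : k2 (phi q) = q := by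
  funext i
  fin_cases i
  · simp [k2, phi]; field_simp
  · simp [k2, phi]

/-- derivative along a line on which the function is affine -/
lemma fderiv_line {N : ℕ} {A : Cn 4 → Cn N} {w h : Cn 4} {v : Cn N}
    (hA : DifferentiableAt ℂ A w)
    (he : ∀ᶠ τ : ℝ in 𝓝 0, A (w + τ • h) = A w + τ • v) : fderiv ℂ A w h = v := by
  have hl : HasDerivAt (fun τ : ℝ => w + τ • h) h 0 := by
    have := ((hasDerivAt_id (0 : ℝ)).smul_const h).const_add w
    simpa using this
  have h0 : w + (0 : ℝ) • h = w := by simp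
  have h1 : HasDerivAt (fun τ : ℝ => A (w + τ • h)) (fderiv ℂ A w h) 0 :=
    Loc.hasDerivAt_hol (γ := fun τ : ℝ => w + τ • h) hA h0 hl
  have h2 : HasDerivAt (fun τ : ℝ => A w + τ • v) v 0 := by
    have := ((hasDerivAt_id (0 : ℝ)).smul_const v).const_add (A w)
    simpa using this
  exact h1.unique (h2.congr_of_eventuallyEq he)

lemma loc1 : Loc 2 2 M₁ phi k1 a1 {w | w 2 ≠ 0} where
  hU := isOpen_ne 2
  hψa := phi_analytic
  hκ := fun w hw => k1_analytic hw
  ha := fun w hw => a1_analytic hw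
  hM := by
    intro w hw
    constructor
    · rintro ⟨q, hq, rfl⟩
      have hq1 : q 1 ≠ 0 := hw
      rw [k1_phi hq1]
      exact ⟨rfl, hq⟩
    · rintro ⟨h1, h2⟩
      exact ⟨k1 w, h2, h1⟩
  hψM := fun q hq => ⟨q, hq, rfl⟩
  hl := fun q hq => k1_phi hq
  ha0 := by
    intro w hw
    have hw' : w 2 ≠ 0 := hw
    constructor
    · intro h
      have e0 : w 0 - (w 3 / w 2) ^ 2 = 0 := congrFun h 0
      have e1 : w 1 - (w 3 / w 2) ^ 3 = 0 := congrFun h 1
      funext i
      fin_cases i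
      · change (w 3 / w 2) ^ 2 = w 0; linear_combination -e0
      · change (w 3 / w 2) ^ 3 = w 1; linear_combination -e1
      · rfl
      · change (w 3 / w 2) * w 2 = w 3; field_simp
    · intro h
      have e0 : (w 3 / w 2) ^ 2 = w 0 := congrFun h 0
      have e1 : (w 3 / w 2) ^ 3 = w 1 := congrFun h 1
      funext i
      fin_cases i
      · change w 0 - (w 3 / w 2) ^ 2 = 0; rw [e0, sub_self]
      · change w 1 - (w 3 / w 2) ^ 3 = 0; rw [e1, sub_self]
  hs := by
    intro w hw _ α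
    have hw' : w 2 ≠ 0 := hw
    refine ⟨![α 0, α 1, 0, 0], ?_, ?_⟩
    · apply fderiv_line (a1_analytic hw').differentiableAt
      refine Eventually.of_forall fun τ => ?_
      funext i
      fin_cases i
      · simp [a1]; ring
      · simp [a1]; ring
    · apply fderiv_line (k1_analytic hw').differentiableAt
      refine Eventually.of_forall fun τ => ?_
      funext i
      fin_cases i
      · simp [k1]
      · simp [k1]

lemma loc2 : Loc 2 2 M₁ phi k2 a2 {w | w 0 ≠ 0} where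
  hU := isOpen_ne 0
  hψa := phi_analytic
  hκ := fun w hw => k2_analytic hw
  ha := fun w hw => a2_analytic hw
  hM := by
    intro w hw
    constructor
    · rintro ⟨q, hq, rfl⟩
      have hq1 : q 0 ≠ 0 := fun h => hw (by simp [phi, h])
      rw [k2_phi hq1]
      exact ⟨rfl, hq⟩
    · rintro ⟨h1, h2⟩
      exact ⟨k2 w, h2, h1⟩
  hψM := fun q hq => ⟨q, hq, rfl⟩
  hl := fun q hq => k2_phi (fun h => hq (by simp [phi, h]))
  ha0 := by
    intro w hw
    have hw' : w 0 ≠ 0 := hw
    constructor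
    · intro h
      have e0 : w 0 - (w 1 / w 0) ^ 2 = 0 := congrFun h 0
      have e1 : w 3 - w 2 * (w 1 / w 0) = 0 := congrFun h 1
      funext i
      fin_cases i
      · change (w 1 / w 0) ^ 2 = w 0; linear_combination -e0
      · change (w 1 / w 0) ^ 3 = w 1
        have e2 : (w 1 / w 0) * w 0 = w 1 := by field_simp
        linear_combination (-(w 1 / w 0)) * e0 + e2
      · rfl
      · change (w 1 / w 0) * w 2 = w 3; linear_combination -e1
    · intro h
      have e0 : (w 1 / w 0) ^ 2 = w 0 := congrFun h 0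
      have e1 : (w 1 / w 0) * w 2 = w 3 := congrFun h 3
      funext i
      fin_cases i
      · change w 0 - (w 1 / w 0) ^ 2 = 0; rw [e0, sub_self]
      · change w 3 - w 2 * (w 1 / w 0) = 0; linear_combination -e1
  hs := by
    intro w hw _ α
    have hw' : w 0 ≠ 0 := hw
    refine ⟨![α 0, (w 1 / w 0) * α 0, 0, α 1], ?_, ?_⟩
    all_goals
      have hev : ∀ᶠ τ : ℝ in 𝓝 0, w 0 + (τ : ℂ) * α 0 ≠ 0 := by
        have hc : Continuous fun τ : ℝ => w 0 + (τ : ℂ) * α 0 := by fun_prop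
        apply hc.continuousAt.eventually_ne
        simpa using hw'
    · apply fderiv_line (a2_analytic hw').differentiableAt
      filter_upwards [hev] with τ hτ
      have hd : (w 1 + (τ : ℂ) * ((w 1 / w 0) * α 0)) / (w 0 + (τ : ℂ) * α 0) = w 1 / w 0 := by
        rw [div_eq_div_iff hτ hw']; field_simp
      funext i
      fin_cases i
      · simp [a2]; rw [hd]; ring
      · simp [a2]; rw [hd]; ring
    · apply fderiv_line (k2_analytic hw').differentiableAt
      filter_upwards [hev] with τ hτ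
      have hd : (w 1 + (τ : ℂ) * ((w 1 / w 0) * α 0)) / (w 0 + (τ : ℂ) * α 0) = w 1 / w 0 := by
        rw [div_eq_div_iff hτ hw']; field_simp
      funext i
      fin_cases i
      · simp [k2]; rw [hd]
      · simp [k2]

lemma M₁_cover {w : Cn 4} (hw : w ∈ M₁) : w 2 ≠ 0 ∨ w 0 ≠ 0 := by
  obtain ⟨q, hq, rfl⟩ := hw
  by_contra hcon
  push Not at hcon
  obtain ⟨h1, h2⟩ := hcon
  have e1 : q 1 = 0 := h1
  have e0 : q 0 = 0 := by
    have : q 0 ^ 2 = 0 := h2
    exact pow_eq_zero_iff (two_ne_zero) |>.1 this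
  have : ∑ i, ‖q i‖ ^ 2 = 1 := hq
  rw [Fin.sum_univ_two, e0, e1] at this
  simp at this

theorem M₁_cr : RealAnalyticSubmanifold M₁ ∧ HasCRDim M₁ 1 ∧ CondL M₁ := by
  refine crL_of_loc (k := 2) (m := 2) (ψ := phi) le_rfl fun z hz => ?_
  rcases M₁_cover hz with h | h
  · exact ⟨k1, a1, _, loc1, h⟩
  · exact ⟨k2, a2, _, loc2, h⟩

/-- the unit sphere of `ℂ⁴` -/
lemma locS (m : ℕ) : Loc m 0 (Sph m) (fun q => q) (fun q => q) (fun _ => 0) univ where
  hU := isOpen_univ
  hψa := fun q => analyticAt_id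
  hκ := fun q _ => analyticAt_id
  ha := fun q _ => analyticAt_const
  hM := fun w _ => ⟨fun h => ⟨rfl, h⟩, fun h => h.2⟩
  hψM := fun q hq => hq
  hl := fun q _ => rfl
  ha0 := fun w _ => ⟨fun _ => rfl, fun _ => rfl⟩
  hs := fun w _ _ α => ⟨0, by simp only [map_zero]; exact Subsingleton.elim _ _, by simp⟩

theorem S7_cr : RealAnalyticSubmanifold (Sph 4) ∧ HasCRDim (Sph 4) 3 ∧ CondL (Sph 4) :=
  crL_of_loc (k := 0) (m := 4) (ψ := fun q => q) (by norm_num)
    fun z _ => ⟨fun q => q, fun _ => 0, univ, locS 4, mem_univ z⟩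

end Pool.Agent.Helper123.CRX
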