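import Pool.Agent.Helper123.CRX.Base

set_option autoImplicit false

open Topology Filter Set
open scoped ContDiff

namespace Pool.Agent.Helper123.CRX

variable {n m k : ℕ} {M : Set (Cn n)} {ψ : Cn m → Cn n} {κ : Cn n → Cn m}
  {a : Cn n → Cn k} {U : Set (Cn n)}

namespace Loc

/-- chain rule for an operator valued holomorphic map applied to a real-smooth field -/
lemma hasDerivAt_apply {N₁ N₂ : ℕ} {A : Cn n → (Cn N₁ →L[ℂ] Cn N₂)} {Y : Cn n → Cn N₁}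
    {γ : ℝ → Cn n} {Y' : Cn N₁} {A' : Cn N₁ →L[ℂ] Cn N₂}
    (hA : HasDerivAt (fun τ => A (γ τ)) A' (0 : ℝ)) (hY : HasDerivAt (fun τ => Y (γ τ)) Y' (0 : ℝ)) :
    HasDerivAt (fun τ => A (γ τ) (Y (γ τ))) (A (γ 0) Y' + A' (Y (γ 0))) (0 : ℝ) := by
  have h1 : HasDerivAt (fun τ : ℝ => (A (γ τ), Y (γ τ))) (A', Y') (0 : ℝ) := hA.prodMk hY
  have hb := (isBoundedBilinearMap_apply (𝕜 := ℂ) (E := Cn N₁) (F := Cn N₂)).hasFDerivAt
    (A (γ 0), Y (γ 0))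
  have hb' := hb.restrictScalars ℝ
  have h2 := HasFDerivAt.comp_hasDerivAt (f := fun τ : ℝ => (A (γ τ), Y (γ τ))) (0 : ℝ) hb' h1
  refine HasDerivAt.congr_deriv (f := fun τ => A (γ τ) (Y (γ τ))) h2 ?_
  simp [IsBoundedBilinearMap.deriv_apply]

lemma hasDerivAt_hol {N₁ : ℕ} {E : Type} [NormedAddCommGroup E] [NormedSpace ℂ E]
    {A : Cn N₁ → E} {γ : ℝ → Cn N₁} {u z : Cn N₁} (hA : DifferentiableAt ℂ A z)
    (h0 : γ 0 = z) (hγ : HasDerivAt γ u (0 : ℝ)) :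
    HasDerivAt (fun τ => A (γ τ)) (fderiv ℂ A z u) (0 : ℝ) := by
  have h1 : HasFDerivAt A ((fderiv ℂ A z).restrictScalars ℝ) (γ 0) := by
    rw [h0]; exact hA.hasFDerivAt.restrictScalars ℝ
  exact HasFDerivAt.comp_hasDerivAt (f := γ) (0 : ℝ) h1 hγ

lemma hasDerivAt_smooth {N₁ N₂ : ℕ}
    {A : Cn N₁ → Cn N₂} {γ : ℝ → Cn N₁} {u z : Cn N₁} (hA : DifferentiableAt ℝ A z)
    (h0 : γ 0 = z) (hγ : HasDerivAt γ u (0 : ℝ)) :
    HasDerivAt (fun τ => A (γ τ)) (fderiv ℝ A z u) (0 : ℝ) := by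
  have h1 : HasFDerivAt A (fderiv ℝ A z) (γ 0) := by
    rw [h0]; exact hA.hasFDerivAt
  exact HasFDerivAt.comp_hasDerivAt (f := γ) (0 : ℝ) h1 hγ

lemma levi_step (L : Loc m k M ψ κ a U) {z : Cn n} (hz : z ∈ U) (hzM : z ∈ M)
    {X : Cn n → Cn n} (hX : ContDiffAt ℝ ∞ X z)
    (hXT : ∀ᶠ w in 𝓝[M] z, X w ∈ ctangent M w) {x : Cn m} (hx : (ip (κ z) x).re = 0) :
    ip x (fderiv ℂ κ z (X z)) +
      ip (κ z) (fderiv ℂ κ z (fderiv ℝ X z (fderiv ℂ ψ (κ z) x)) +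
        fderiv ℂ (fderiv ℂ κ) z (fderiv ℂ ψ (κ z) x) (X z)) = 0 := by
  obtain ⟨hψz, hN⟩ := (L.hM z hz).1 hzM
  obtain ⟨γ, hγ0, hγM, hγ⟩ := L.curve hN hx
  rw [hψz] at hγ0
  have hXd : DifferentiableAt ℝ X z := hX.differentiableAt (by simp)
  have h1 := hasDerivAt_hol (L.κdiff hz) hγ0 hγ
  have hK : DifferentiableAt ℂ (fderiv ℂ κ) z := ((L.hκ z hz).fderiv).differentiableAt
  have h2 := hasDerivAt_hol hK hγ0 hγ
  have h3 := hasDerivAt_smooth hXd hγ0 hγ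
  have h4 := hasDerivAt_apply h2 h3
  have h5 := hasDerivAt_ip h1 h4
  have hψU : ψ (κ z) ∈ U := by rw [hψz]; exact hz
  rw [L.dκψ' hz hψz x] at h5
  have h6 : HasDerivAt (fun τ => ip (κ (γ τ)) (fderiv ℂ κ (γ τ) (X (γ τ)))) 0 (0 : ℝ) := by
    refine (hasDerivAt_const (0 : ℝ) (0 : ℂ)).congr_of_eventuallyEq ?_
    have hc : Tendsto γ (𝓝 0) (𝓝[M] z) := by
      rw [tendsto_nhdsWithin_iff]
      refine ⟨?_, Eventually.of_forall hγM⟩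
      have := hγ.continuousAt.tendsto
      rwa [hγ0] at this
    have hγU : ∀ᶠ τ in 𝓝 (0 : ℝ), γ τ ∈ U := by
      apply hγ.continuousAt.eventually
      rw [hγ0]; exact L.hU.mem_nhds hz
    filter_upwards [hc.eventually hXT, hγU] with τ h7 h8
    obtain ⟨y, hy, hXy⟩ := (L.mem_ctangent_iff h8 (hγM τ) _).1 h7
    rw [hXy, L.dκψ' h8 (L.ψκ h8 (hγM τ)), hy]
  have h7 := h5.unique h6
  simp only [hγ0] at h7
  exact h7

/-- the Levi form, read in the parametrisation -/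
lemma levi (L : Loc m k M ψ κ a U) {z : Cn n} (hz : z ∈ U) (hzM : z ∈ M)
    {x : Cn m} {b : Cn n} (hx : ip (κ z) x = 0) (hb : LeviVal M z (fderiv ℂ ψ (κ z) x) b) :
    ip (κ z) (fderiv ℂ κ z b) = -2 * Complex.I * NN x := by
  obtain ⟨hψz, hN⟩ := (L.hM z hz).1 hzM
  obtain ⟨X, hX, hXT, hXz, rfl⟩ := hb
  have e1 := L.levi_step hz hzM hX hXT (x := x) (by rw [hx]; rfl)
  have e2 := L.levi_step hz hzM hX hXT (x := Complex.I • x) (by rw [ip_smul, hx]; simp)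
  rw [hXz, L.dκψ' hz hψz] at e1 e2
  rw [ip_add, ip_self] at e1
  have s1 : fderiv ℂ ψ (κ z) (Complex.I • x) = Complex.I • fderiv ℂ ψ (κ z) x := map_smul _ _ _
  have s2 : fderiv ℂ (fderiv ℂ κ) z (Complex.I • fderiv ℂ ψ (κ z) x) =
    Complex.I • fderiv ℂ (fderiv ℂ κ) z (fderiv ℂ ψ (κ z) x) := map_smul _ _ _
  rw [ip_smul_left, s1, s2, ip_add, ip_self] at e2
  rw [show (Complex.I • fderiv ℂ (fderiv ℂ κ) z (fderiv ℂ ψ (κ z) x)) (fderiv ℂ ψ (κ z) x) =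
    Complex.I • (fderiv ℂ (fderiv ℂ κ) z (fderiv ℂ ψ (κ z) x)) (fderiv ℂ ψ (κ z) x) from rfl,
    ip_smul] at e2
  simp only [Complex.conj_I] at e2
  have s3 : fderiv ℂ κ z (Complex.I • fderiv ℝ X z (fderiv ℂ ψ (κ z) x) -
      fderiv ℝ X z (Complex.I • fderiv ℂ ψ (κ z) x)) =
      Complex.I • fderiv ℂ κ z (fderiv ℝ X z (fderiv ℂ ψ (κ z) x)) -
      fderiv ℂ κ z (fderiv ℝ X z (Complex.I • fderiv ℂ ψ (κ z) x)) := by
    rw [map_sub, map_smul]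
  rw [s3, ip_sub, ip_smul]
  linear_combination Complex.I * e1 - e2

end Loc

end Pool.Agent.Helper123.CRX
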