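import Pool.Agent.Helper123.CRX.NoExt

set_option autoImplicit false

open Topology Filter Set
open scoped ContDiff

namespace Pool.Agent.Helper123.CRX

/-- the linear embedding `(s,t) ↦ (s,t,0,0)` -/
noncomputable def emb (q : Cn 2) : Cn 4 := ![q 0, q 1, 0, 0]

/-- the CR map: the inverse of `φ` followed by the linear embedding -/
noncomputable def fmap (w : Cn 4) : Cn 4 := by
  classical exact if w 2 ≠ 0 then emb (k1 w) else emb (k2 w)

lemma emb_analytic (q : Cn 2) : AnalyticAt ℂ emb q := by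
  rw [analyticAt_pi_iff]
  intro i
  fin_cases i
  · exact analytic_coord 0 q
  · exact analytic_coord 1 q
  · exact analyticAt_const
  · exact analyticAt_const

lemma sph2_iff (q : Cn 2) : q ∈ Sph 2 ↔ ‖q 0‖ ^ 2 + ‖q 1‖ ^ 2 = 1 := by
  unfold Sph
  rw [mem_ofPred_eq, Fin.sum_univ_two]

lemma fmap_phi {q : Cn 2} (hq : q ∈ Sph 2) : fmap (phi q) = emb q := by
  unfold fmap
  by_cases h : q 1 = 0
  · have h2 : phi q 2 = 0 := h
    have h0 : q 0 ≠ 0 := by
      intro h0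
      rw [sph2_iff, h, h0] at hq
      simp at hq
    rw [if_neg (not_not.2 h2), k2_phi h0]
  · have h2 : phi q 2 ≠ 0 := h
    rw [if_pos h2, k1_phi h]

lemma emb_mem {q : Cn 2} (hq : q ∈ Sph 2) : emb q ∈ Sph 4 := by
  rw [sph2_iff] at hq
  change ∑ i, ‖emb q i‖ ^ 2 = 1
  rw [Fin.sum_univ_four]
  simp [emb, hq]

lemma ip_emb (p x : Cn 2) : ip (emb p) (emb x) = ip p x := by
  unfold ip
  rw [Fin.sum_univ_four, Fin.sum_univ_two]
  simp [emb]

/-- `emb` as a linear map -/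
noncomputable def embL : Cn 2 →ₗ[ℂ] Cn 4 where
  toFun := emb
  map_add' x y := by
    funext i
    fin_cases i <;> simp [emb]
  map_smul' c x := by
    funext i
    fin_cases i <;> simp [emb]

lemma emb_hasFDerivAt (q : Cn 2) : HasFDerivAt (𝕜 := ℂ) emb (LinearMap.toContinuousLinearMap embL) q :=
  (LinearMap.toContinuousLinearMap embL).hasFDerivAt

lemma chart {κ : Cn 4 → Cn 2} {a : Cn 4 → Cn 2} {U : Set (Cn 4)} (L : Loc 2 2 M₁ phi κ a U)
    {z : Cn 4} (hz : z ∈ U) (hzM : z ∈ M₁) :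
    ∃ g : Cn 4 → Cn 4, ContDiffAt ℝ ∞ g z ∧
    (∀ᶠ w in 𝓝[M₁] z, g w = fmap w) ∧
    ∀ v ∈ ctangent M₁ z, fderiv ℝ g z v ∈ ctangent (Sph 4) (fmap z) ∧
      fderiv ℝ g z (Complex.I • v) = Complex.I • fderiv ℝ g z v := by
  have hval : ∀ w ∈ U, w ∈ M₁ → emb (κ w) = fmap w := by
    intro w hwU hw
    obtain ⟨h1, h2⟩ := (L.hM w hwU).1 hw
    have h3 : κ w ∈ Sph 2 := h2
    have := fmap_phi h3
    rw [h1] at this
    exact this.symm
  have hA : AnalyticAt ℂ (fun w => emb (κ w)) z :=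
    AnalyticAt.fun_comp (emb_analytic (κ z)) (L.hκ z hz)
  have hD : HasFDerivAt (𝕜 := ℂ) (fun w => emb (κ w))
      ((LinearMap.toContinuousLinearMap embL).comp (fderiv ℂ κ z)) z :=
    (emb_hasFDerivAt (κ z)).comp z (L.κdiff hz).hasFDerivAt
  have hR : fderiv ℝ (fun w => emb (κ w)) z =
      ((LinearMap.toContinuousLinearMap embL).comp (fderiv ℂ κ z)).restrictScalars ℝ :=
    (hD.restrictScalars ℝ).fderiv
  refine ⟨fun w => emb (κ w), ?_, ?_, ?_⟩
  · exact (hA.contDiffAt (n := ∞)).restrict_scalars ℝ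
  · have h1 : ∀ᶠ w in 𝓝[M₁] z, w ∈ U := mem_nhdsWithin_of_mem_nhds (L.hU.mem_nhds hz)
    filter_upwards [h1, self_mem_nhdsWithin] with w hw hwM using hval w hw hwM
  · intro v hv
    obtain ⟨x, hx, rfl⟩ := (L.mem_ctangent_iff hz hzM v).1 hv
    rw [hR]
    obtain ⟨h1, h2⟩ := (L.hM z hz).1 hzM
    have e : ((LinearMap.toContinuousLinearMap embL).comp (fderiv ℂ κ z)).restrictScalars ℝ
        (fderiv ℂ phi (κ z) x) = emb x := by
      change emb (fderiv ℂ κ z (fderiv ℂ phi (κ z) x)) = emb x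
      rw [L.dκψ' hz h1]
    constructor
    · rw [e]
      have h3 : κ z ∈ Sph 2 := h2
      have h4 : fmap z ∈ Sph 4 := by
        rw [← hval z hz hzM]; exact emb_mem h3
      refine ((locS 4).mem_ctangent_iff (mem_univ _) h4 _).2 ⟨emb x, ?_, ?_⟩
      · rw [← hval z hz hzM, ip_emb, hx]
      · rw [fderiv_fun_id]
        rfl
    · exact ((LinearMap.toContinuousLinearMap embL).comp (fderiv ℂ κ z)).map_smul Complex.I _

theorem fmap_cr : SmoothCRMap M₁ (Sph 4) fmap := by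
  refine ⟨?_, fun z hz => ?_⟩
  · rintro _ ⟨q, hq, rfl⟩
    rw [fmap_phi hq]
    exact emb_mem hq
  · rcases M₁_cover hz with h | h
    · exact chart loc1 h hz
    · exact chart loc2 h hz

lemma Sph_compact (m : ℕ) : IsCompact (Sph m) := by
  have hc : IsClosed (Sph m) := isClosed_eq (by fun_prop) continuous_const
  have hb : Bornology.IsBounded (Sph m) := by
    refine (Metric.isBounded_closedBall (x := (0 : Cn m)) (r := 1)).subset ?_
    intro q hq
    rw [mem_closedBall_zero_iff, pi_norm_le_iff_of_nonneg zero_le_one]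
    intro i
    have h1 : ‖q i‖ ^ 2 ≤ ∑ j, ‖q j‖ ^ 2 :=
      Finset.single_le_sum (f := fun j => ‖q j‖ ^ 2) (fun j _ => by positivity) (Finset.mem_univ i)
    have h2 : ∑ j, ‖q j‖ ^ 2 = 1 := hq
    rw [h2] at h1
    exact (sq_le_one_iff₀ (norm_nonneg _)).1 h1
  exact Metric.isCompact_of_isClosed_isBounded hc hb

lemma M₁_compact : IsCompact M₁ :=
  (Sph_compact 2).image (continuous_iff_continuousAt.2 fun q => (phi_analytic q).continuousAt)

theorem main : ∃ (M N : Set (Cn 4)) (f : Cn 4 → Cn 4),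
    (RealAnalyticSubmanifold M ∧ HasCRDim M 1 ∧ CondL M) ∧
    (RealAnalyticSubmanifold N ∧ HasCRDim N 3 ∧ CondL N) ∧
    IsCompact M ∧ IsCompact N ∧ SmoothCRMap M N f ∧
    ¬ ∃ (U : Set (Cn 4)) (F : Cn 4 → Cn 4), IsOpen U ∧ M ⊆ U ∧ DifferentiableOn ℂ F U ∧
      EqOn F f M := by
  refine ⟨M₁, Sph 4, fmap, M₁_cr, S7_cr, M₁_compact, Sph_compact 4, fmap_cr, ?_⟩
  rintro ⟨U, F, hU, hMU, hF, hFf⟩
  refine no_ext (G := fun w => F w 0) hU hMU ?_ ?_
  · intro w hw
    exact differentiableWithinAt_pi.1 (hF w hw) 0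
  · intro q hq
    have h1 : F (phi q) = fmap (phi q) := hFf ⟨q, hq, rfl⟩
    change F (phi q) 0 = q 0
    rw [h1, fmap_phi hq]
    rfl

end Pool.Agent.Helper123.CRX
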