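import Mathlib

set_option autoImplicit false

open Metric Set MeasureTheory Filter Topology

namespace Pool.Agent.Helper123.CRX

/-- analytic dependence of an integral on a parameter -/
theorem differentiableAt_integral {F : ℂ → ℝ → ℂ} {ν : Measure ℝ} {v₀ : ℂ} {δ : ℝ} (hδ : 0 < δ)
    {bound : ℝ → ℝ} (hF : ∀ᵐ t ∂ν, DifferentiableOn ℂ (fun v => F v t) (ball v₀ δ))
    (hmeas : ∀ v ∈ ball v₀ δ, AEStronglyMeasurable (F v) ν)
    (hb : ∀ᵐ t ∂ν, ∀ v ∈ ball v₀ δ, ‖F v t‖ ≤ bound t) (hbint : Integrable bound ν) :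
    DifferentiableAt ℂ (fun v => ∫ t, F v t ∂ν) v₀ := by
  have hv₀ : v₀ ∈ ball v₀ δ := mem_ball_self hδ
  have hder : ∀ᵐ t ∂ν, ∀ v ∈ ball v₀ (δ / 2),
      HasDerivAt (fun v => F v t) (deriv (fun v => F v t) v) v := by
    filter_upwards [hF] with t ht v hv
    have hv' : v ∈ ball v₀ δ := ball_subset_ball (by linarith) hv
    exact ((ht v hv').differentiableAt (isOpen_ball.mem_nhds hv')).hasDerivAt
  have hbd : ∀ᵐ t ∂ν, ∀ v ∈ ball v₀ (δ / 2), ‖deriv (fun v => F v t) v‖ ≤ bound t / (δ / 4) := by
    filter_upwards [hF, hb] with t ht hbt v hv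
    have hsub : closedBall v (δ / 4) ⊆ ball v₀ δ := by
      intro w hw
      rw [mem_closedBall] at hw
      rw [mem_ball] at hv ⊢
      calc dist w v₀ ≤ dist w v + dist v v₀ := dist_triangle _ _ _
        _ < δ := by linarith
    refine Complex.norm_deriv_le_of_forall_mem_sphere_norm_le (by positivity) ?_ ?_
    · exact (ht.mono (closure_ball_subset_closedBall.trans hsub)).diffContOnCl
    · intro z hz
      exact hbt z (hsub (sphere_subset_closedBall hz))
  have hmeas' : AEStronglyMeasurable (fun t => deriv (fun v => F v t) v₀) ν := by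
    set h : ℕ → ℂ := fun n => ((δ / 2 / ((n : ℝ) + 1) : ℝ) : ℂ) with hh
    have hpos : ∀ n : ℕ, 0 < δ / 2 / ((n : ℝ) + 1) := fun n => by positivity
    have hball : ∀ n, v₀ + h n ∈ ball v₀ δ := by
      intro n
      rw [mem_ball, dist_eq_norm, add_sub_cancel_left, hh]
      simp only
      rw [Complex.norm_real, Real.norm_eq_abs, abs_of_pos (hpos n)]
      have h1 : δ / 2 / ((n : ℝ) + 1) ≤ δ / 2 := div_le_self (by positivity) (by
        have : (0 : ℝ) ≤ n := Nat.cast_nonneg n
        linarith)
      linarith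
    refine aestronglyMeasurable_of_tendsto_ae atTop
      (f := fun n t => (h n)⁻¹ • (F (v₀ + h n) t - F v₀ t)) (fun n => ?_) ?_
    · exact AEStronglyMeasurable.const_smul ((hmeas _ (hball n)).sub (hmeas _ hv₀)) (h n)⁻¹
    · filter_upwards [hder] with t ht
      have h1 := (ht v₀ (mem_ball_self (by positivity))).tendsto_slope_zero
      refine h1.comp ?_
      refine tendsto_nhdsWithin_iff.2 ⟨?_, ?_⟩
      · rw [hh]
        have h2 : Tendsto (fun n : ℕ => δ / 2 / ((n : ℝ) + 1)) atTop (𝓝 0) := by
          have h3 := tendsto_one_div_add_atTop_nhds_zero_nat (𝕜 := ℝ)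
          have h4 := h3.const_mul (δ / 2)
          rw [mul_zero] at h4
          refine h4.congr fun n => ?_
          ring
        have h5 := (Complex.continuous_ofReal.tendsto 0).comp h2
        rw [Complex.ofReal_zero] at h5
        exact h5
      · refine Eventually.of_forall fun n => ?_
        simp only [mem_compl_iff, mem_singleton_iff]
        exact Complex.ofReal_ne_zero.2 (hpos n).ne'
  have key := hasDerivAt_integral_of_dominated_loc_of_deriv_le (𝕜 := ℂ) (F := F)
    (F' := fun v t => deriv (fun v => F v t) v) (x₀ := v₀) (s := ball v₀ (δ / 2))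
    (bound := fun t => bound t / (δ / 4)) (μ := ν)
    (ball_mem_nhds _ (by positivity))
    (by
      filter_upwards [ball_mem_nhds v₀ hδ] with v hv
      exact hmeas v hv)
    (by
      refine hbint.mono' (hmeas _ hv₀) ?_
      filter_upwards [hb] with t ht
      exact ht v₀ hv₀)
    hmeas' hbd (hbint.div_const _) hder
  exact key.2.differentiableAt


end Pool.Agent.Helper123.CRX
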