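import Pool.Agent.Helper123.CRX.Ex
import Pool.Agent.Helper123.CRX.Holo
import Pool.Agent.Helper123.CRX.Param

set_option autoImplicit false

open Topology Filter Set MeasureTheory
open scoped ContDiff Real

namespace Pool.Agent.Helper123.CRX

/-- the family of discs -/
noncomputable def DD (s ζ : ℂ) : Cn 4 := phi ![Complex.cos s * ζ, Complex.sin s]

lemma phi_continuous : Continuous phi :=
  continuous_iff_continuousAt.2 fun q => (phi_analytic q).continuousAt

lemma DD_continuous : Continuous (fun p : ℂ × ℂ => DD p.1 p.2) := by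
  unfold DD
  refine phi_continuous.comp ?_
  refine continuous_pi fun i => ?_
  fin_cases i
  · change Continuous fun p : ℂ × ℂ => Complex.cos p.1 * p.2
    fun_prop
  · change Continuous fun p : ℂ × ℂ => Complex.sin p.1
    fun_prop

lemma DD_diff_left (ζ : ℂ) : Differentiable ℂ (fun s => DD s ζ) := by
  intro s
  have h1 : DifferentiableAt ℂ (fun s : ℂ => (![Complex.cos s * ζ, Complex.sin s] : Cn 2)) s := by
    rw [differentiableAt_pi]
    intro i
    fin_cases i
    · change DifferentiableAt ℂ (fun s => Complex.cos s * ζ) s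
      fun_prop
    · change DifferentiableAt ℂ (fun s => Complex.sin s) s
      fun_prop
  exact (phi_analytic _).differentiableAt.comp s h1

lemma DD_diff_right (s : ℂ) : Differentiable ℂ (fun ζ => DD s ζ) := by
  intro ζ
  have h1 : DifferentiableAt ℂ (fun ζ : ℂ => (![Complex.cos s * ζ, Complex.sin s] : Cn 2)) ζ := by
    rw [differentiableAt_pi]
    intro i
    fin_cases i
    · change DifferentiableAt ℂ (fun ζ => Complex.cos s * ζ) ζ
      fun_prop
    · change DifferentiableAt ℂ (fun _ => Complex.sin s) ζ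
      fun_prop
  exact (phi_analytic _).differentiableAt.comp ζ h1

lemma DD_mem {θ : ℝ} {ζ : ℂ} (hζ : ‖ζ‖ = 1) : DD θ ζ ∈ M₁ := by
  refine ⟨_, ?_, rfl⟩
  change ∑ i, ‖(![Complex.cos θ * ζ, Complex.sin θ] : Cn 2) i‖ ^ 2 = 1
  rw [Fin.sum_univ_two]
  simp only [Matrix.cons_val_zero, Matrix.cons_val_one]
  rw [norm_mul, hζ, mul_one, ← Complex.ofReal_cos, ← Complex.ofReal_sin, Complex.norm_real,
    Complex.norm_real, Real.norm_eq_abs, Real.norm_eq_abs, sq_abs, sq_abs]
  exact Real.cos_sq_add_sin_sq θ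

variable {U : Set (Cn 4)}

lemma tube (hU : IsOpen U) {K : Set ℂ} (hK : IsCompact K) {s₀ : ℂ} (h : ∀ ζ ∈ K, DD s₀ ζ ∈ U) :
    ∀ᶠ s in 𝓝 s₀, ∀ ζ ∈ K, DD s ζ ∈ U := by
  refine hK.eventually_forall_of_forall_eventually fun ζ hζ => ?_
  exact DD_continuous.continuousAt.eventually (hU.mem_nhds (h ζ hζ))

noncomputable def JJ (g : Cn 4 → ℂ) (k : ℕ) (s : ℂ) : ℂ := ∮ ζ in C(0, 1), g (DD s ζ) * ζ ^ k

lemma JJ_diff (hU : IsOpen U) {g : Cn 4 → ℂ} (hg : DifferentiableOn ℂ g U) (k : ℕ) {s₀ : ℂ}
    (h : ∀ ζ ∈ Metric.sphere (0 : ℂ) 1, DD s₀ ζ ∈ U) : DifferentiableAt ℂ (JJ g k) s₀ := by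
  have hK : IsCompact (Metric.sphere (0 : ℂ) 1) := isCompact_sphere 0 1
  obtain ⟨r, hr, hball⟩ := Metric.eventually_nhds_iff_ball.1 (tube hU hK h)
  set δ := r / 2 with hδ
  have hδ0 : 0 < δ := by positivity
  -- uniform bound
  have hcomp : IsCompact (Metric.closedBall s₀ δ ×ˢ Metric.sphere (0 : ℂ) 1) :=
    (isCompact_closedBall _ _).prod hK
  have hmem : ∀ p ∈ Metric.closedBall s₀ δ ×ˢ Metric.sphere (0 : ℂ) 1, DD p.1 p.2 ∈ U := by
    rintro ⟨s, ζ⟩ ⟨hs, hζ⟩
    exact hball s (Metric.closedBall_subset_ball (by linarith) hs) ζ hζ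
  have hcont : ContinuousOn (fun p : ℂ × ℂ => g (DD p.1 p.2))
      (Metric.closedBall s₀ δ ×ˢ Metric.sphere (0 : ℂ) 1) :=
    hg.continuousOn.comp DD_continuous.continuousOn hmem
  obtain ⟨B, hB⟩ := hcomp.exists_bound_of_continuousOn hcont
  have hcm : ∀ t : ℝ, circleMap 0 1 t ∈ Metric.sphere (0 : ℂ) 1 := fun t =>
    circleMap_mem_sphere 0 zero_le_one t
  have hn : ∀ t : ℝ, ‖circleMap 0 1 t‖ = 1 := fun t => by simpa using hcm t
  have e1 : JJ g k = fun s => ∫ t, deriv (circleMap 0 1) t •
      (g (DD s (circleMap 0 1 t)) * (circleMap 0 1 t) ^ k) ∂(volume.restrict (Ioc 0 (2 * π))) := by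
    funext s
    unfold JJ circleIntegral
    rw [intervalIntegral.integral_of_le (by positivity)]
  rw [e1]
  refine differentiableAt_integral (δ := δ) hδ0 (bound := fun _ => B) ?_ ?_ ?_ ?_
  · refine Eventually.of_forall fun t => ?_
    intro s hs
    have hsU : DD s (circleMap 0 1 t) ∈ U :=
      hmem (s, circleMap 0 1 t) ⟨Metric.ball_subset_closedBall hs, hcm t⟩
    have h1 : DifferentiableAt ℂ g (DD s (circleMap 0 1 t)) :=
      (hg _ hsU).differentiableAt (hU.mem_nhds hsU)
    have h2 : DifferentiableAt ℂ (fun s => g (DD s (circleMap 0 1 t))) s :=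
      DifferentiableAt.comp (g := g) (f := fun s => DD s (circleMap 0 1 t)) s h1
        (DD_diff_left _ s)
    have h3 : DifferentiableAt ℂ (fun s => deriv (circleMap 0 1) t *
        (g (DD s (circleMap 0 1 t)) * (circleMap 0 1 t) ^ k)) s :=
      (h2.mul_const ((circleMap 0 1 t) ^ k)).const_mul (deriv (circleMap 0 1) t)
    exact h3.differentiableWithinAt
  · intro s hs
    have hc : Continuous fun t : ℝ => deriv (circleMap 0 1) t •
        (g (DD s (circleMap 0 1 t)) * (circleMap 0 1 t) ^ k) := by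
      have h3 : Continuous fun t : ℝ => g (DD s (circleMap 0 1 t)) := by
        rw [continuous_iff_continuousAt]
        intro t
        have hsU : DD s (circleMap 0 1 t) ∈ U :=
          hmem (s, circleMap 0 1 t) ⟨Metric.ball_subset_closedBall hs, hcm t⟩
        have h1 : ContinuousAt g (DD s (circleMap 0 1 t)) :=
          ((hg _ hsU).differentiableAt (hU.mem_nhds hsU)).continuousAt
        have h2 : ContinuousAt (fun t : ℝ => DD s (circleMap 0 1 t)) t :=
          ((DD_diff_right s).continuous.comp (continuous_circleMap 0 1)).continuousAt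
        exact ContinuousAt.comp (g := g) (f := fun t : ℝ => DD s (circleMap 0 1 t)) h1 h2
      have h4 : Continuous fun t : ℝ => deriv (circleMap 0 1) t := by
        simp only [deriv_circleMap]
        exact (continuous_circleMap 0 1).mul continuous_const
      exact h4.smul (h3.mul ((continuous_circleMap 0 1).pow k))
    exact hc.aestronglyMeasurable
  · refine Eventually.of_forall fun t => ?_
    intro s hs
    rw [norm_smul, norm_mul, norm_pow, hn, one_pow, mul_one, deriv_circleMap, norm_mul, hn,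
      Complex.norm_I]
    have := hB (s, circleMap 0 1 t) ⟨Metric.ball_subset_closedBall hs, hcm t⟩
    simpa using this
  · exact integrable_const _

/-- the key vanishing -/
lemma JJ_zero (hU : IsOpen U) (hMU : M₁ ⊆ U) {g : Cn 4 → ℂ} (hg : DifferentiableOn ℂ g U)
    (k : ℕ) : JJ g k 0 = 0 := by
  set V : Set ℂ := {s | ∀ ζ ∈ Metric.sphere (0 : ℂ) 1, DD s ζ ∈ U} with hV
  have hVo : IsOpen V := by
    rw [isOpen_iff_eventually]
    intro s hs
    exact tube hU (isCompact_sphere 0 1) hs
  have hd : DifferentiableOn ℂ (JJ g k) V := fun s hs => (JJ_diff hU hg k hs).differentiableWithinAt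
  have han : AnalyticOnNhd ℂ (JJ g k) V := hd.analyticOnNhd hVo
  have hreal : {s : ℂ | s.im = 0} ⊆ V := by
    intro s hs ζ hζ
    apply hMU
    have : s = ((s.re : ℝ) : ℂ) := by
      apply Complex.ext
      · simp
      · simpa using hs
    rw [this]
    exact DD_mem (by simpa using hζ)
  have hpre : IsPreconnected {s : ℂ | s.im = 0} := by
    apply Convex.isPreconnected
    exact convex_hyperplane (𝕜 := ℝ) (f := fun s : ℂ => s.im) Complex.imLm.isLinear 0
  have hev : JJ g k =ᶠ[𝓝 ((π / 2 : ℝ) : ℂ)] 0 := by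
    have h1 : ∀ ζ ∈ Metric.closedBall (0 : ℂ) 1, DD ((π / 2 : ℝ) : ℂ) ζ ∈ U := by
      intro ζ _
      have e : DD ((π / 2 : ℝ) : ℂ) ζ = DD ((π / 2 : ℝ) : ℂ) 1 := by
        unfold DD
        rw [← Complex.ofReal_cos, Real.cos_pi_div_two]
        simp
      rw [e]
      exact hMU (DD_mem (by simp))
    filter_upwards [tube hU (isCompact_closedBall 0 1) h1] with s hs
    have hdc : DiffContOnCl ℂ (fun ζ => g (DD s ζ) * ζ ^ k) (Metric.ball (0 : ℂ) 1) := by
      have : DifferentiableOn ℂ (fun ζ => g (DD s ζ) * ζ ^ k) (Metric.closedBall (0 : ℂ) 1) := by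
        intro ζ hζ
        have h2 : DifferentiableAt ℂ g (DD s ζ) :=
          (hg _ (hs ζ hζ)).differentiableAt (hU.mem_nhds (hs ζ hζ))
        have h3 : DifferentiableAt ℂ (fun ζ => g (DD s ζ)) ζ :=
          DifferentiableAt.comp (g := g) (f := fun ζ => DD s ζ) ζ h2 (DD_diff_right s ζ)
        exact (h3.mul (differentiableAt_id.pow k)).differentiableWithinAt
      exact this.diffContOnCl_ball le_rfl
    exact hdc.circleIntegral_eq_zero zero_le_one
  have := (han.mono hreal).eqOn_zero_of_preconnected_of_eventuallyEq_zero hpre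
    (show ((π / 2 : ℝ) : ℂ) ∈ {s : ℂ | s.im = 0} from Complex.ofReal_im _) hev
  exact this (show (0 : ℂ) ∈ {s : ℂ | s.im = 0} from rfl)

/-- no function holomorphic near `M₁` restricts to the coordinate `s` -/
theorem no_ext (hU : IsOpen U) (hMU : M₁ ⊆ U) {G : Cn 4 → ℂ} (hG : DifferentiableOn ℂ G U)
    (hGs : ∀ q ∈ Sph 2, G (phi q) = q 0) : False := by
  have hDs : ∀ v, DifferentiableOn ℂ (fun w => fderiv ℂ G w v) U := fun v =>
    Holo.differentiableOn_fderiv_apply hU hG v
  set e0 : Cn 4 := ![1, 0, 0, 0] with he0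
  set e1 : Cn 4 := ![0, 1, 0, 0] with he1
  have J0 := JJ_zero hU hMU (hDs e0) 0
  have J1 := JJ_zero hU hMU (hDs e1) 1
  -- the derivative relation on the circle
  have hrel : ∀ t : ℝ, 2 * circleMap 0 1 t * fderiv ℂ G (DD 0 (circleMap 0 1 t)) e0 +
      3 * (circleMap 0 1 t) ^ 2 * fderiv ℂ G (DD 0 (circleMap 0 1 t)) e1 = 1 := by
    intro t
    have hD : ∀ ζ : ℂ, DD 0 ζ = ![ζ ^ 2, ζ ^ 3, 0, 0] := by
      intro ζ
      unfold DD phi
      simp
    have hc := hasDerivAt_circleMap (0 : ℂ) 1 t
    have hz : ‖circleMap 0 1 t‖ = 1 := by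
      have := circleMap_mem_sphere (0 : ℂ) zero_le_one t
      simpa using this
    set ζ := circleMap 0 1 t with hζ
    have hcurve : HasDerivAt (fun t : ℝ => DD 0 (circleMap 0 1 t))
        ((2 * ζ * (ζ * Complex.I)) • e0 + (3 * ζ ^ 2 * (ζ * Complex.I)) • e1) t := by
      rw [hasDerivAt_pi]
      intro i
      have h2 := (hc.pow 2)
      have h3 := (hc.pow 3)
      fin_cases i
      · have : (fun t : ℝ => DD 0 (circleMap 0 1 t) 0) = fun t : ℝ => (circleMap 0 1 t) ^ 2 := by
          funext t; rw [hD]; simp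
        simp only [Fin.zero_eta]
        rw [this]
        refine HasDerivAt.congr_deriv (f := fun t : ℝ => (circleMap 0 1 t) ^ 2) h2 ?_
        simp [he0, he1]
        exact Or.inl rfl
      · have : (fun t : ℝ => DD 0 (circleMap 0 1 t) 1) = fun t : ℝ => (circleMap 0 1 t) ^ 3 := by
          funext t; rw [hD]; simp
        simp only [Fin.mk_one]
        rw [this]
        refine HasDerivAt.congr_deriv (f := fun t : ℝ => (circleMap 0 1 t) ^ 3) h3 ?_
        simp [he0, he1]
        exact Or.inl rfl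
      · have : (fun t : ℝ => DD 0 (circleMap 0 1 t) 2) = fun t : ℝ => 0 := by
          funext t; rw [hD]; simp
        simp only [Fin.reduceFinMk]
        rw [this]
        refine (hasDerivAt_const t (0 : ℂ)).congr_deriv ?_
        simp [he0, he1]
      · have : (fun t : ℝ => DD 0 (circleMap 0 1 t) 3) = fun t : ℝ => 0 := by
          funext t; rw [hD]; simp
        simp only [Fin.reduceFinMk]
        rw [this]
        refine (hasDerivAt_const t (0 : ℂ)).congr_deriv ?_
        simp [he0, he1]
    have hmem : DD 0 ζ ∈ U := by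
      apply hMU
      have := DD_mem (θ := 0) hz
      simpa using this
    have hGd : HasFDerivAt G ((fderiv ℂ G (DD 0 ζ)).restrictScalars ℝ) (DD 0 ζ) :=
      ((hG _ hmem).differentiableAt (hU.mem_nhds hmem)).hasFDerivAt.restrictScalars ℝ
    have h5 : HasDerivAt (fun t : ℝ => G (DD 0 (circleMap 0 1 t)))
        (fderiv ℂ G (DD 0 ζ) ((2 * ζ * (ζ * Complex.I)) • e0 + (3 * ζ ^ 2 * (ζ * Complex.I)) • e1)) t :=
      HasFDerivAt.comp_hasDerivAt (f := fun t : ℝ => DD 0 (circleMap 0 1 t)) t hGd hcurve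
    have h6 : (fun t : ℝ => G (DD 0 (circleMap 0 1 t))) = fun t : ℝ => circleMap 0 1 t := by
      funext t
      have hq : (![Complex.cos 0 * circleMap 0 1 t, Complex.sin 0] : Cn 2) ∈ Sph 2 := by
        have hz : ‖circleMap 0 1 t‖ = 1 := by
          have := circleMap_mem_sphere (0 : ℂ) zero_le_one t
          simpa using this
        change ∑ i, ‖(![Complex.cos 0 * circleMap 0 1 t, Complex.sin 0] : Cn 2) i‖ ^ 2 = 1
        rw [Fin.sum_univ_two]
        simp [hz]
      have := hGs _ hq
      unfold DD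
      rw [this]
      simp
    rw [h6] at h5
    have h7 := h5.unique hc
    rw [map_add, map_smul, map_smul, smul_eq_mul, smul_eq_mul] at h7
    have hζ0 : ζ * Complex.I ≠ 0 := by
      apply mul_ne_zero
      · intro h0
        rw [h0, norm_zero] at hz
        exact zero_ne_one hz
      · exact Complex.I_ne_zero
    apply mul_left_cancel₀ hζ0
    linear_combination h7
  -- integrate
  have hcont : ∀ v, ContinuousOn (fun ζ : ℂ => fderiv ℂ G (DD 0 ζ) v) (Metric.sphere 0 1) := by
    intro v
    refine ((hDs v).continuousOn).comp (DD_diff_right 0).continuous.continuousOn ?_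
    intro ζ hζ
    apply hMU
    have := DD_mem (θ := 0) (ζ := ζ) (by simpa using hζ)
    simpa using this
  have c0 : CircleIntegrable (fun ζ => fderiv ℂ G (DD 0 ζ) e0 * ζ ^ 0) 0 1 := by
    refine ContinuousOn.circleIntegrable zero_le_one ?_
    exact (hcont e0).mul (by fun_prop)
  have c1 : CircleIntegrable (fun ζ => fderiv ℂ G (DD 0 ζ) e1 * ζ ^ 1) 0 1 := by
    refine ContinuousOn.circleIntegrable zero_le_one ?_
    exact (hcont e1).mul (by fun_prop)
  have c0' : CircleIntegrable (fun ζ => 2 * (fderiv ℂ G (DD 0 ζ) e0 * ζ ^ 0)) 0 1 := by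
    refine ContinuousOn.circleIntegrable zero_le_one ?_
    exact continuousOn_const.mul ((hcont e0).mul (by fun_prop))
  have c1' : CircleIntegrable (fun ζ => 3 * (fderiv ℂ G (DD 0 ζ) e1 * ζ ^ 1)) 0 1 := by
    refine ContinuousOn.circleIntegrable zero_le_one ?_
    exact continuousOn_const.mul ((hcont e1).mul (by fun_prop))
  have hsum : (∮ ζ in C(0, 1), (ζ - 0)⁻¹) =
      ∮ ζ in C(0, 1), (2 * (fderiv ℂ G (DD 0 ζ) e0 * ζ ^ 0) +
        3 * (fderiv ℂ G (DD 0 ζ) e1 * ζ ^ 1)) := by
    unfold circleIntegral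
    refine intervalIntegral.integral_congr fun t _ => ?_
    have hz : ‖circleMap 0 1 t‖ = 1 := by
      have := circleMap_mem_sphere (0 : ℂ) zero_le_one t
      simpa using this
    have hz0 : circleMap 0 1 t ≠ 0 := by
      intro h0
      rw [h0, norm_zero] at hz
      exact zero_ne_one hz
    have h := hrel t
    simp only
    congr 1
    rw [sub_zero]
    field_simp
    linear_combination -h
  rw [circleIntegral.integral_sub_center_inv (0 : ℂ) one_ne_zero,
    circleIntegral.integral_add c0' c1'] at hsum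
  rw [circleIntegral.integral_const_mul, circleIntegral.integral_const_mul] at hsum
  unfold JJ at J0 J1
  rw [J0, J1] at hsum
  have : (2 * (π : ℂ) * Complex.I) = 0 := by simpa using hsum
  simp [Real.pi_ne_zero] at this

end Pool.Agent.Helper123.CRX
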