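import Pool.Agent.Helper123.CRX.Main

set_option autoImplicit false

open Topology Filter Set
open scoped ContDiff

namespace Pool.Agent.Helper123.CRS

/-- complex Euclidean space `ℂⁿ` -/
abbrev Cn (n : ℕ) := Fin n → ℂ

/-- the real differential of `g` at `z`, applied to `v` -/
noncomputable def der {n : ℕ} (g : Cn n → Cn n) (z v : Cn n) : Cn n := fderiv ℝ g z v

/-- `g` is of class `C^∞` (in the real sense) near `z` -/
def SmoothAt {n : ℕ} (g : Cn n → Cn n) (z : Cn n) : Prop := ContDiffAt ℝ ∞ g z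

/-- multiplication by `i`, as a real linear map -/
noncomputable def mulI (n : ℕ) : Cn n →ₗ[ℝ] Cn n where
  toFun v := Complex.I • v
  map_add' u v := smul_add _ _ _
  map_smul' r v := by
    simp only [RingHom.id_apply]
    exact smul_comm _ _ _

/-- `ρ` is real-analytic on the open set `U` and its differential is onto at the points of `S` -/
def AnalyticSubmersionOn {n d : ℕ} (ρ : Cn n → (Fin d → ℝ)) (U S : Set (Cn n)) : Prop :=
  AnalyticOnNhd ℝ ρ U ∧ ∀ w ∈ S, Function.Surjective (fderiv ℝ ρ w)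

/-- `M` is an embedded real-analytic submanifold of `ℂⁿ`: near each of its points it is the
zero set of a real-analytic map to some `ℝ^d` whose differential is onto at the points of `M`. -/
def RealAnalyticSubmanifold {n : ℕ} (M : Set (Cn n)) : Prop :=
  ∀ z ∈ M, ∃ (d : ℕ) (U : Set (Cn n)) (ρ : Cn n → (Fin d → ℝ)), IsOpen U ∧ z ∈ U ∧
    AnalyticSubmersionOn ρ U (M ∩ U) ∧ M ∩ U = {w | w ∈ U ∧ ρ w = 0}

/-- `v` is the velocity at `z` of a curve in `M` -/
def Velocity {n : ℕ} (M : Set (Cn n)) (z v : Cn n) : Prop :=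
  ∃ γ : ℝ → Cn n, γ 0 = z ∧ (∀ᶠ τ in 𝓝 (0 : ℝ), γ τ ∈ M) ∧ HasDerivAt γ v 0

/-- the tangent space `T_z M`: spanned by the velocities at `z` of curves in `M` -/
noncomputable def tangent {n : ℕ} (M : Set (Cn n)) (z : Cn n) : Submodule ℝ (Cn n) :=
  Submodule.span ℝ {v | Velocity M z v}

/-- the complex tangent space `T^c_z M = T_z M ∩ i T_z M` -/
noncomputable def ctangent {n : ℕ} (M : Set (Cn n)) (z : Cn n) : Submodule ℝ (Cn n) :=
  tangent M z ⊓ (tangent M z).comap (mulI n)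

/-- `M` has CR dimension `k`: every complex tangent space has complex dimension `k` -/
def HasCRDim {n : ℕ} (M : Set (Cn n)) (k : ℕ) : Prop :=
  ∀ z ∈ M, Module.finrank ℝ (ctangent M z) = 2 * k

/-- `X` is a smooth field near `z` with values in the complex tangent spaces along `M` -/
def CRField {n : ℕ} (M : Set (Cn n)) (z : Cn n) (X : Cn n → Cn n) : Prop :=
  SmoothAt X z ∧ ∀ᶠ w in 𝓝[M] z, X w ∈ ctangent M w

/-- `b` is the bracket `[X, iX](z)` for some smooth field `X` along `M` near `z` with values in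
the complex tangent spaces and `X(z) = v`; its class modulo `T^c_z M` is the value `L_z(v)` of
the Levi form -/
def LeviVal {n : ℕ} (M : Set (Cn n)) (z v b : Cn n) : Prop :=
  ∃ X : Cn n → Cn n, CRField M z X ∧ X z = v ∧
    b = Complex.I • der X z v - der X z (Complex.I • v)

/-- the complex tangent space as a subspace of the tangent space -/
noncomputable def cSub {n : ℕ} (M : Set (Cn n)) (z : Cn n) : Submodule ℝ (tangent M z) :=
  (ctangent M z).comap (tangent M z).subtype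

/-- the normal space `N_z M = T_z M / T^c_z M` -/
abbrev NSp {n : ℕ} (M : Set (Cn n)) (z : Cn n) : Type := (tangent M z) ⧸ (cSub M z)

/-- the class in `N_z M` of a tangent vector -/
noncomputable def toNSp {n : ℕ} {M : Set (Cn n)} {z : Cn n} (b : tangent M z) : NSp M z :=
  Submodule.Quotient.mk b

/-- the set `K_z` of values of the Levi form on the unit sphere of `T^c_z M` -/
def KSet {n : ℕ} (M : Set (Cn n)) (z : Cn n) : Set (NSp M z) :=
  {q | ∃ v ∈ ctangent M z, ∑ i, ‖v i‖ ^ 2 = 1 ∧ ∃ b : tangent M z, LeviVal M z v b ∧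
    q = toNSp b}

/-- for a set `K` in a real topological vector space: `0` is not in the convex hull of `K`, and
the convex cone generated by `K` has non-empty interior -/
def SharpFat {V : Type} [AddCommGroup V] [Module ℝ V] [TopologicalSpace V] (K : Set V) : Prop :=
  (0 : V) ∉ convexHull ℝ K ∧
    (interior ((Submodule.span NNReal K : Submodule NNReal V) : Set V)).Nonempty

/-- condition (L): at every point `z` of `M`, `0` is not in the convex hull of `K_z`, and the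
convex cone generated by `K_z` has non-empty interior in `N_z M` -/
def CondL {n : ℕ} (M : Set (Cn n)) : Prop := ∀ z ∈ M, SharpFat (KSet M z)

/-- `g` maps `T^c_z M₁` complex-linearly into `T^c_p M₂` by its differential at `z` -/
def DerCR {n : ℕ} (M₁ M₂ : Set (Cn n)) (g : Cn n → Cn n) (z p : Cn n) : Prop :=
  ∀ v ∈ ctangent M₁ z, der g z v ∈ ctangent M₂ p ∧
    der g z (Complex.I • v) = Complex.I • der g z v

/-- `f` is a CR mapping of class `C^∞` from `M₁` to `M₂` -/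
def SmoothCRMap {n : ℕ} (M₁ M₂ : Set (Cn n)) (f : Cn n → Cn n) : Prop :=
  MapsTo f M₁ M₂ ∧ ∀ z ∈ M₁, ∃ g : Cn n → Cn n, SmoothAt g z ∧
    (∀ᶠ w in 𝓝[M₁] z, g w = f w) ∧ DerCR M₁ M₂ g z (f z)

/-- `f` is, on `M`, the restriction of a map holomorphic on an open set containing `M` -/
def HasHolExtension {n : ℕ} (M : Set (Cn n)) (f : Cn n → Cn n) : Prop :=
  ∃ (U : Set (Cn n)) (F : Cn n → Cn n), IsOpen U ∧ M ⊆ U ∧ DifferentiableOn ℂ F U ∧ EqOn F f M

lemma ras {n : ℕ} {M : Set (Cn n)} (h : CRX.RealAnalyticSubmanifold M) :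
    RealAnalyticSubmanifold M := by
  intro z hz
  obtain ⟨d, U, ρ, h1, h2, h3, h4, h5⟩ := h z hz
  exact ⟨d, U, ρ, h1, h2, ⟨h3, h4⟩, h5⟩

lemma levi_iff {n : ℕ} {M : Set (Cn n)} {z v b : Cn n} :
    LeviVal M z v b ↔ CRX.LeviVal M z v b := by
  constructor
  · rintro ⟨X, ⟨h1, h2⟩, h3, h4⟩
    exact ⟨X, h1, h2, h3, h4⟩
  · rintro ⟨X, h1, h2, h3, h4⟩
    exact ⟨X, ⟨h1, h2⟩, h3, h4⟩

lemma kset {n : ℕ} (M : Set (Cn n)) (z : Cn n) :
    KSet M z = CRX.KSet M z := by
  ext q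
  constructor
  · rintro ⟨v, h1, h2, b, h3, h4⟩
    exact ⟨v, h1, h2, b, levi_iff.1 h3, h4⟩
  · rintro ⟨v, h1, h2, b, h3, h4⟩
    exact ⟨v, h1, h2, b, levi_iff.2 h3, h4⟩

lemma condL {n : ℕ} {M : Set (Cn n)} (h : CRX.CondL M) : CondL M := by
  intro z hz
  obtain ⟨h1, h2⟩ := h z hz
  unfold SharpFat
  rw [kset]
  exact ⟨h1, h2⟩

lemma crmap {n : ℕ} {M₁ M₂ : Set (Cn n)} {f : Cn n → Cn n} (h : CRX.SmoothCRMap M₁ M₂ f) :
    SmoothCRMap M₁ M₂ f := by
  refine ⟨h.1, fun z hz => ?_⟩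
  obtain ⟨g, h1, h2, h3⟩ := h.2 z hz
  exact ⟨g, h1, h2, h3⟩

theorem main : ∃ (M₁ M₂ : Set (Cn 4)) (f : Cn 4 → Cn 4),
    (RealAnalyticSubmanifold M₁ ∧ HasCRDim M₁ 1 ∧ CondL M₁) ∧
    (RealAnalyticSubmanifold M₂ ∧ HasCRDim M₂ 3 ∧ CondL M₂) ∧
    IsCompact M₁ ∧ IsCompact M₂ ∧ SmoothCRMap M₁ M₂ f ∧ ¬ HasHolExtension M₁ f := by
  obtain ⟨M, N, f, ⟨h1, h2, h3⟩, ⟨h4, h5, h6⟩, h7, h8, h9, h10⟩ := CRX.main
  exact ⟨M, N, f, ⟨ras h1, h2, condL h3⟩, ⟨ras h4, h5, condL h6⟩, h7, h8, crmap h9, h10⟩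

end Pool.Agent.Helper123.CRS
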